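import Mathlib
import Pool.Agent.LipPlane.Basic
import Pool.Agent.LipPlane.Charges

set_option autoImplicit false
open Filter Topology
open scoped NNReal BoundedContinuousFunction

namespace Pool.Agent.Results.MP_e1b320_an.InternalSequences

open Pool.Agent.LipPlane

/-- The functional `χ` on `Lip_0(ℝ²)` only depends on the restriction of the function to the closed
ball with centre `q` and radius `r` (modulo constants). -/
def SupportedIn {E : Type} [NormedAddCommGroup E] [NormedSpace ℝ E]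
    (T : E →ₗ[ℝ] (Plane → ℝ)) (q : Plane) (r : ℝ) (χ : E →L[ℝ] ℝ) : Prop :=
  ∀ e e' : E, (∀ y : Plane, dist y q ≤ r → T e y - T e' y = T e q - T e' q) → χ e = χ e'

theorem abs_apply_le {E : Type} [NormedAddCommGroup E] [NormedSpace ℝ E] {χ : E →L[ℝ] ℝ}
    (h : ‖χ‖ ≤ 1) (e : E) : |χ e| ≤ ‖e‖ := by
  have h1 := χ.le_opNorm e
  have h2 : ‖χ‖ * ‖e‖ ≤ 1 * ‖e‖ := mul_le_mul_of_nonneg_right h (norm_nonneg _)
  rw [one_mul] at h2
  exact h1.trans h2

/-- The bounded sequence `N ↦ Λ N e`. -/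
noncomputable def bseq {E : Type} [NormedAddCommGroup E] [NormedSpace ℝ E]
    (Λ : ℕ → (E →L[ℝ] ℝ)) (h : ∀ N, ‖Λ N‖ ≤ 1) (e : E) : ℕ →ᵇ ℝ :=
  BoundedContinuousFunction.ofNormedAddCommGroupDiscrete (fun N => Λ N e) ‖e‖
    (fun N => abs_apply_le (h N) e)

theorem bseq_apply {E : Type} [NormedAddCommGroup E] [NormedSpace ℝ E]
    (Λ : ℕ → (E →L[ℝ] ℝ)) (h : ∀ N, ‖Λ N‖ ≤ 1) (e : E) (N : ℕ) : bseq Λ h e N = Λ N e := rfl

/-- Helly's theorem, approximate form. -/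
theorem helly {E : Type} [NormedAddCommGroup E] [NormedSpace ℝ E]
    (φ : ℕ → (E →L[ℝ] ℝ)) (ψ : (E →L[ℝ] ℝ) →L[ℝ] ℝ) (r : ℝ) (hr : 0 < r) (hψ : ‖ψ‖ ≤ r)
    (K : ℕ) (τ : ℝ) (hτ : 0 < τ) :
    ∃ e : E, ‖e‖ ≤ r ∧ ∀ j < K, |φ j e - ψ (φ j)| ≤ τ := by
  let A : E →ₗ[ℝ] (Fin K → ℝ) := LinearMap.pi fun j => (φ j : E →ₗ[ℝ] ℝ)
  let C : Set (Fin K → ℝ) := A '' Metric.closedBall 0 r
  have hC : Convex ℝ C := (convex_closedBall (0 : E) r).linear_image A
  let y : Fin K → ℝ := fun j => ψ (φ j)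
  have hy : y ∈ closure C := by
    by_contra hnot
    obtain ⟨f, u, h1, h2⟩ := geometric_hahn_banach_closed_point hC.closure isClosed_closure hnot
    let c : Fin K → ℝ := fun j => f (Pi.single j 1)
    have hf : ∀ z : Fin K → ℝ, f z = ∑ j, z j * c j := by
      intro z
      have hz : z = ∑ j, z j • (Pi.single j (1 : ℝ) : Fin K → ℝ) := by
        funext i
        simp [Finset.sum_apply, Pi.single_apply]
      conv_lhs => rw [hz]
      rw [map_sum]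
      apply Finset.sum_congr rfl
      intro j _
      rw [map_smul, smul_eq_mul]
    let χ : E →L[ℝ] ℝ := ∑ j, c j • φ (j : ℕ)
    have hχ : ∀ e : E, χ e = f (A e) := by
      intro e
      rw [hf]
      simp only [χ]
      rw [sum_apply]
      apply Finset.sum_congr rfl
      intro j _
      show c j * φ j e = φ j e * c j
      ring
    have hψχ : ψ χ = f y := by
      rw [hf]
      simp only [χ, y]
      rw [map_sum]
      apply Finset.sum_congr rfl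
      intro j _
      rw [map_smul, smul_eq_mul]
      ring
    have hle : ∀ e : E, ‖e‖ ≤ r → χ e < u := by
      intro e he
      rw [hχ]
      exact h1 _ (subset_closure ⟨e, by simpa using he, rfl⟩)
    have hu : 0 < u := by
      have h3 := hle 0 (by rw [norm_zero]; exact hr.le)
      rwa [map_zero] at h3
    have hnorm : ‖χ‖ ≤ u / r := by
      apply χ.opNorm_le_bound (by positivity)
      intro e
      by_cases he : e = 0
      · subst he
        simp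
      · have hpos : 0 < ‖e‖ := norm_pos_iff.mpr he
        have key : ∀ s : ℝ, |s| = 1 → s * χ e ≤ u / r * ‖e‖ := by
          intro s hs
          have h3 := hle ((s * r / ‖e‖) • e) (by
            rw [norm_smul, Real.norm_eq_abs, abs_div, abs_mul, hs, one_mul, abs_of_pos hr,
              abs_of_pos hpos]
            field_simp
            exact le_rfl)
          rw [map_smul, smul_eq_mul] at h3
          have h4 : s * χ e = (s * r / ‖e‖ * χ e) * (‖e‖ / r) := by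
            field_simp
          rw [h4]
          have h5 : (s * r / ‖e‖ * χ e) * (‖e‖ / r) ≤ u * (‖e‖ / r) :=
            mul_le_mul_of_nonneg_right h3.le (by positivity)
          refine h5.trans (le_of_eq ?_)
          ring
        rw [Real.norm_eq_abs]
        rcases abs_cases (χ e) with ⟨h3, -⟩ | ⟨h3, -⟩
        · rw [h3]
          have := key 1 (by norm_num)
          linarith
        · rw [h3]
          have := key (-1) (by norm_num)
          linarith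
    have h3 : ψ χ ≤ r * (u / r) := by
      have h4 := ψ.le_opNorm χ
      have h5 : ‖ψ‖ * ‖χ‖ ≤ r * (u / r) :=
        mul_le_mul hψ hnorm (norm_nonneg _) hr.le
      exact (le_abs_self _).trans (h4.trans h5)
    have h6 : r * (u / r) = u := by field_simp
    rw [h6, hψχ] at h3
    linarith
  obtain ⟨z, ⟨e, he, rfl⟩, hz⟩ := Metric.mem_closure_iff.mp hy τ hτ
  refine ⟨e, by simpa using he, ?_⟩
  intro j hj
  have h1 := (dist_le_pi_dist y (A e) ⟨j, hj⟩).trans hz.le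
  rw [Real.dist_eq, abs_sub_comm] at h1
  exact h1

section quad

variable {E : Type} [NormedAddCommGroup E] [NormedSpace ℝ E]

/-- The weighted square sum at level `N`. -/
noncomputable def q (Λ : ℕ → ℕ → (E →L[ℝ] ℝ)) (N : ℕ) (u : E) : ℝ :=
  ∑' j, (1 / 2 : ℝ) ^ j * (Λ j N u) ^ 2

theorem q_bound {Λ : ℕ → ℕ → (E →L[ℝ] ℝ)} (hΛ : ∀ k N, ‖Λ k N‖ ≤ 1) (N : ℕ) (u : E) (j : ℕ) :
    (1 / 2 : ℝ) ^ j * (Λ j N u) ^ 2 ≤ (1 / 2 : ℝ) ^ j * ‖u‖ ^ 2 := by
  have h1 := abs_apply_le (hΛ j N) u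
  have h2 : (Λ j N u) ^ 2 ≤ ‖u‖ ^ 2 := by
    rw [← sq_abs]
    exact pow_le_pow_left₀ (abs_nonneg _) h1 2
  exact mul_le_mul_of_nonneg_left h2 (by positivity)

theorem q_summable {Λ : ℕ → ℕ → (E →L[ℝ] ℝ)} (hΛ : ∀ k N, ‖Λ k N‖ ≤ 1) (N : ℕ) (u : E) :
    Summable (fun j => (1 / 2 : ℝ) ^ j * (Λ j N u) ^ 2) := by
  have h1 : Summable (fun j : ℕ => (1 / 2 : ℝ) ^ j * ‖u‖ ^ 2) :=
    (summable_geometric_of_lt_one (by norm_num) (by norm_num)).mul_right _
  exact Summable.of_nonneg_of_le (fun j => by positivity) (fun j => q_bound hΛ N u j) h1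

theorem q_nonneg (Λ : ℕ → ℕ → (E →L[ℝ] ℝ)) (N : ℕ) (u : E) : 0 ≤ q Λ N u :=
  tsum_nonneg fun j => by positivity

theorem q_le {Λ : ℕ → ℕ → (E →L[ℝ] ℝ)} (hΛ : ∀ k N, ‖Λ k N‖ ≤ 1) (N : ℕ) (u : E) :
    q Λ N u ≤ 2 * ‖u‖ ^ 2 := by
  have h1 : Summable (fun j : ℕ => (1 / 2 : ℝ) ^ j * ‖u‖ ^ 2) :=
    (summable_geometric_of_lt_one (by norm_num) (by norm_num)).mul_right _
  have h2 := Summable.tsum_le_tsum (fun j => q_bound hΛ N u j) (q_summable hΛ N u) h1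
  rw [tsum_mul_right, tsum_geometric_two] at h2
  exact h2

theorem le_q {Λ : ℕ → ℕ → (E →L[ℝ] ℝ)} (hΛ : ∀ k N, ‖Λ k N‖ ≤ 1) (N : ℕ) (u : E) (k : ℕ) :
    (1 / 2 : ℝ) ^ k * (Λ k N u) ^ 2 ≤ q Λ N u :=
  (q_summable hΛ N u).le_tsum k (fun j _ => by positivity)

theorem q_par {Λ : ℕ → ℕ → (E →L[ℝ] ℝ)} (hΛ : ∀ k N, ‖Λ k N‖ ≤ 1) (N : ℕ) (u v : E) :
    q Λ N (u - v) = 2 * q Λ N u + 2 * q Λ N v - 4 * q Λ N ((1 / 2 : ℝ) • (u + v)) := by
  unfold q
  rw [← tsum_mul_left, ← tsum_mul_left, ← tsum_mul_left, ← Summable.tsum_add, ← Summable.tsum_sub]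
  · apply tsum_congr
    intro j
    rw [map_sub, map_smul, map_add, smul_eq_mul]
    ring
  · exact ((q_summable hΛ N u).mul_left 2).add ((q_summable hΛ N v).mul_left 2)
  · exact (q_summable hΛ N _).mul_left 4
  · exact (q_summable hΛ N u).mul_left 2
  · exact (q_summable hΛ N v).mul_left 2

/-- The bounded sequence `N ↦ q N u`. -/
noncomputable def qseq (Λ : ℕ → ℕ → (E →L[ℝ] ℝ)) (hΛ : ∀ k N, ‖Λ k N‖ ≤ 1) (u : E) : ℕ →ᵇ ℝ :=
  BoundedContinuousFunction.ofNormedAddCommGroupDiscrete (fun N => q Λ N u) (2 * ‖u‖ ^ 2)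
    (fun N => by
      rw [Real.norm_eq_abs, abs_of_nonneg (q_nonneg Λ N u)]
      exact q_le hΛ N u)

theorem qseq_apply (Λ : ℕ → ℕ → (E →L[ℝ] ℝ)) (hΛ : ∀ k N, ‖Λ k N‖ ≤ 1) (u : E) (N : ℕ) :
    qseq Λ hΛ u N = q Λ N u := rfl

theorem qseq_par (Λ : ℕ → ℕ → (E →L[ℝ] ℝ)) (hΛ : ∀ k N, ‖Λ k N‖ ≤ 1)
    (lam : (ℕ →ᵇ ℝ) →L[ℝ] ℝ) (u v : E) :
    lam (qseq Λ hΛ (u - v)) = 2 * lam (qseq Λ hΛ u) + 2 * lam (qseq Λ hΛ v) -
      4 * lam (qseq Λ hΛ ((1 / 2 : ℝ) • (u + v))) := by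
  have h1 : qseq Λ hΛ (u - v) = (2 : ℝ) • qseq Λ hΛ u + (2 : ℝ) • qseq Λ hΛ v -
      (4 : ℝ) • qseq Λ hΛ ((1 / 2 : ℝ) • (u + v)) := by
    ext N
    show q Λ N (u - v) = 2 * q Λ N u + 2 * q Λ N v - 4 * q Λ N ((1 / 2 : ℝ) • (u + v))
    exact q_par hΛ N u v
  rw [h1, map_sub, map_add, map_smul, map_smul, map_smul]
  simp only [smul_eq_mul]

end quad

/-- The indicator sequence of a set. -/
noncomputable def ind (A : Set ℕ) : ℕ →ᵇ ℝ :=
  BoundedContinuousFunction.ofNormedAddCommGroupDiscrete (A.indicator fun _ => (1 : ℝ)) 1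
    (fun N => by
      by_cases h : N ∈ A
      · rw [Set.indicator_of_mem h, norm_one]
      · rw [Set.indicator_of_notMem h, norm_zero]
        exact zero_le_one)

theorem ind_mem {A : Set ℕ} {N : ℕ} (h : N ∈ A) : ind A N = 1 :=
  Set.indicator_of_mem h (fun _ => (1 : ℝ))

theorem ind_notMem {A : Set ℕ} {N : ℕ} (h : N ∉ A) : ind A N = 0 :=
  Set.indicator_of_notMem h (fun _ => (1 : ℝ))

theorem ind_nonneg (A : Set ℕ) (N : ℕ) : 0 ≤ ind A N := by
  by_cases h : N ∈ A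
  · rw [ind_mem h]
    exact zero_le_one
  · rw [ind_notMem h]

theorem approx {E : Type} [NormedAddCommGroup E] [NormedSpace ℝ E]
    {T : E →ₗ[ℝ] (Plane → ℝ)} (hT : IsLipModel E T)
    (p : ℕ → Plane) (R : ℕ → ℝ) (hR : ∀ n, 0 < R n)
    (hp : ∀ m n, m ≠ n → 2 * (R m + R n) ≤ dist (p m) (p n))
    (Λ : ℕ → ℕ → (E →L[ℝ] ℝ)) (hΛ : ∀ k N, ‖Λ k N‖ ≤ 1)
    (hΛs : ∀ k N, SupportedIn T (p N) (R N) (Λ k N))
    (lam : (ℕ →ᵇ ℝ) →L[ℝ] ℝ) (hpos : ∀ g : ℕ →ᵇ ℝ, (∀ N, 0 ≤ g N) → 0 ≤ lam g)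
    (φ : ℕ → (E →L[ℝ] ℝ))
    (ψ : (E →L[ℝ] ℝ) →L[ℝ] ℝ) (r : ℝ) (hr : 0 < r) (hψ : ‖ψ‖ ≤ r) (η' : ℝ) (hη' : 0 < η') :
    ∃ (e : E) (v : ℕ → E) (bad : ℕ → Set ℕ), ‖e‖ ≤ r ∧ (∀ i, ‖v i‖ ≤ r) ∧
      (∀ i, ∀ k < i, |φ k (v i) - ψ (φ k)| ≤ 1 / ((i : ℝ) + 1)) ∧
      (∀ i, lam (ind (bad i)) ≤ η' * (1 / 2 : ℝ) ^ i) ∧
      ∀ k N i, k < i → i ≤ N → N ∉ ⋃ l ∈ Finset.range i, bad l →
        |Λ k N e - Λ k N (v i)| ≤ (2 : ℝ) ^ k * (2 * (1 / 2 : ℝ) ^ i) := by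
  classical
  have hmono : ∀ g h : ℕ →ᵇ ℝ, (∀ N, g N ≤ h N) → lam g ≤ lam h := by
    intro g h hgh
    have h1 := hpos (h - g) (fun N => by
      rw [BoundedContinuousFunction.coe_sub, Pi.sub_apply, sub_nonneg]
      exact hgh N)
    rw [map_sub, sub_nonneg] at h1
    exact h1
  let one : ℕ →ᵇ ℝ := BoundedContinuousFunction.const ℕ 1
  have hlam1 : 0 ≤ lam one := hpos one (fun N => zero_le_one)
  let Q : E → ℝ := fun u => lam (qseq Λ hΛ u)
  have hQ0 : ∀ u, 0 ≤ Q u := fun u => hpos _ (fun N => q_nonneg Λ N u)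
  have hQle : ∀ u, ‖u‖ ≤ r → Q u ≤ 2 * r ^ 2 * lam one := by
    intro u hu
    have h1 := hmono (qseq Λ hΛ u) ((2 * r ^ 2 : ℝ) • one) (fun N => by
      show q Λ N u ≤ (2 * r ^ 2) * 1
      rw [mul_one]
      refine (q_le hΛ N u).trans ?_
      have := pow_le_pow_left₀ (norm_nonneg u) hu 2
      linarith)
    rw [map_smul, smul_eq_mul] at h1
    exact h1
  -- the convex sets
  let S : ℕ → Set E := fun K => {u | ‖u‖ ≤ r ∧ ∀ j < K, |φ j u - ψ (φ j)| ≤ 1 / ((K : ℝ) + 1)}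
  have hSne : ∀ K, (S K).Nonempty := by
    intro K
    obtain ⟨e, he1, he2⟩ := helly φ ψ r hr hψ K (1 / ((K : ℝ) + 1)) (by positivity)
    exact ⟨e, he1, he2⟩
  have hSanti : ∀ K L, K ≤ L → S L ⊆ S K := by
    intro K L hKL u hu
    refine ⟨hu.1, fun j hj => (hu.2 j (by omega)).trans ?_⟩
    have h1 : (K : ℝ) ≤ L := by exact_mod_cast hKL
    exact one_div_le_one_div_of_le (by positivity) (by linarith)
  have hSmid : ∀ K, ∀ u ∈ S K, ∀ v ∈ S K, (1 / 2 : ℝ) • (u + v) ∈ S K := by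
    intro K u hu v hv
    refine ⟨?_, ?_⟩
    · rw [norm_smul, Real.norm_eq_abs, abs_of_pos (by norm_num : (0 : ℝ) < 1 / 2)]
      have h1 := norm_add_le u v
      have h2 := hu.1
      have h3 := hv.1
      linarith
    · intro j hj
      have h1 := abs_le.mp (hu.2 j hj)
      have h2 := abs_le.mp (hv.2 j hj)
      rw [map_smul, map_add, smul_eq_mul, abs_le]
      constructor <;> linarith
  let d : ℕ → ℝ := fun K => sInf (Q '' S K)
  have hbdd : ∀ K, BddBelow (Q '' S K) := by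
    intro K
    refine ⟨0, ?_⟩
    rintro _ ⟨u, -, rfl⟩
    exact hQ0 u
  have hdle : ∀ K, ∀ u ∈ S K, d K ≤ Q u := fun K u hu => csInf_le (hbdd K) ⟨u, hu, rfl⟩
  have hdmono : Monotone d := by
    intro K L hKL
    exact csInf_le_csInf (hbdd K) ((hSne L).image Q) (Set.image_mono (hSanti K L hKL))
  have hdbd : BddAbove (Set.range d) := by
    refine ⟨2 * r ^ 2 * lam one, ?_⟩
    rintro _ ⟨K, rfl⟩
    obtain ⟨u, hu⟩ := hSne K
    exact (hdle K u hu).trans (hQle u hu.1)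
  have hdlim := tendsto_atTop_ciSup hdmono hdbd
  have hdsup : ∀ K, d K ≤ ⨆ i, d i := fun K => le_ciSup hdbd K
  have hux : ∀ K : ℕ, ∃ u ∈ S K, Q u ≤ d K + 1 / ((K : ℝ) + 1) := by
    intro K
    have h1 : sInf (Q '' S K) < d K + 1 / ((K : ℝ) + 1) := by
      have : (0 : ℝ) < 1 / ((K : ℝ) + 1) := by positivity
      show d K < _
      linarith
    obtain ⟨_, ⟨u, hu, rfl⟩, hlt⟩ := exists_lt_of_csInf_lt ((hSne K).image Q) h1
    exact ⟨u, hu, hlt.le⟩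
  choose u huS huQ using hux
  have hcau : ∀ τ : ℝ, 0 < τ → ∃ K0 : ℕ, ∀ K ≥ K0, ∀ L ≥ K, Q (u K - u L) ≤ τ := by
    intro τ hτ
    have h1 : ∀ᶠ K : ℕ in atTop, (⨆ i, d i) - τ / 4 < d K :=
      hdlim.eventually_const_lt (by linarith)
    have h2 : ∀ᶠ K : ℕ in atTop, 1 / ((K : ℝ) + 1) < τ / 8 :=
      tendsto_one_div_add_atTop_nhds_zero_nat.eventually_lt_const (by positivity)
    obtain ⟨K0, hK0⟩ := eventually_atTop.mp (h1.and h2)
    refine ⟨K0, fun K hK L hL => ?_⟩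
    have h3 := (hK0 K hK).1
    have h4 := (hK0 K hK).2
    have h5 := (hK0 L (hK.trans hL)).2
    have h6 : Q (u K - u L) = 2 * Q (u K) + 2 * Q (u L) - 4 * Q ((1 / 2 : ℝ) • (u K + u L)) :=
      qseq_par Λ hΛ lam (u K) (u L)
    have h7 := hdle K _ (hSmid K (u K) (huS K) (u L) (hSanti K L hL (huS L)))
    have h8 := huQ K
    have h9 := huQ L
    have h10 := hdsup L
    rw [h6]
    linarith
  -- fast subsequence
  choose κ hκ using fun i : ℕ => hcau (η' * (1 / 8 : ℝ) ^ i) (by positivity)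
  let Ki : ℕ → ℕ := fun i => ∑ l ∈ Finset.range (i + 1), (κ l + 1)
  have hKi1 : ∀ i, κ i ≤ Ki i := by
    intro i
    have h1 : κ i + 1 ≤ Ki i :=
      Finset.single_le_sum (f := fun l => κ l + 1) (fun l _ => Nat.zero_le _)
        (Finset.mem_range.mpr (Nat.lt_succ_self i))
    omega
  have hKi2 : ∀ i, Ki i ≤ Ki (i + 1) := by
    intro i
    simp only [Ki]
    rw [Finset.sum_range_succ _ (i + 1)]
    omega
  have hKi3 : ∀ i, i ≤ Ki i := by
    intro i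
    simp only [Ki]
    have h1 : ∑ l ∈ Finset.range (i + 1), 1 ≤ ∑ l ∈ Finset.range (i + 1), (κ l + 1) :=
      Finset.sum_le_sum fun l _ => by omega
    rw [Finset.sum_const, Finset.card_range, smul_eq_mul, mul_one] at h1
    omega
  let v : ℕ → E := fun i => u (Ki i)
  have hvS : ∀ i, v i ∈ S i := fun i => hSanti i (Ki i) (hKi3 i) (huS (Ki i))
  have hvr : ∀ i, ‖v i‖ ≤ r := fun i => (hvS i).1
  have hvQ : ∀ i, Q (v i - v (i + 1)) ≤ η' * (1 / 8 : ℝ) ^ i :=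
    fun i => hκ i (Ki i) (hKi1 i) (Ki (i + 1)) (hKi2 i)
  -- bad sets
  let bad : ℕ → Set ℕ := fun i => {N | (1 / 4 : ℝ) ^ i < q Λ N (v i - v (i + 1))}
  have hind : ∀ i, lam (ind (bad i)) ≤ η' * (1 / 2 : ℝ) ^ i := by
    intro i
    have h1 : lam (ind (bad i)) ≤ lam (((4 : ℝ) ^ i) • qseq Λ hΛ (v i - v (i + 1))) := by
      apply hmono
      intro N
      show ind (bad i) N ≤ (4 : ℝ) ^ i * q Λ N (v i - v (i + 1))
      by_cases hb : N ∈ bad i
      · rw [ind_mem hb]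
        have h2 : (4 : ℝ) ^ i * (1 / 4 : ℝ) ^ i = 1 := by
          rw [← mul_pow]
          norm_num
        rw [← h2]
        exact mul_le_mul_of_nonneg_left (le_of_lt hb) (by positivity)
      · rw [ind_notMem hb]
        have := q_nonneg Λ N (v i - v (i + 1))
        positivity
    rw [map_smul, smul_eq_mul] at h1
    have h3 : (4 : ℝ) ^ i * Q (v i - v (i + 1)) ≤ (4 : ℝ) ^ i * (η' * (1 / 8 : ℝ) ^ i) :=
      mul_le_mul_of_nonneg_left (hvQ i) (by positivity)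
    have h4 : (4 : ℝ) ^ i * (η' * (1 / 8 : ℝ) ^ i) = η' * (1 / 2 : ℝ) ^ i := by
      have h5 : (4 : ℝ) ^ i * (1 / 8 : ℝ) ^ i = (1 / 2 : ℝ) ^ i := by
        rw [← mul_pow]
        norm_num
      rw [← h5]
      ring
    exact h1.trans (h3.trans (le_of_eq h4))
  -- stopping index
  have hstop : ∀ N : ℕ, ∃ i, i = N ∨ N ∈ bad i := fun N => ⟨N, Or.inl rfl⟩
  let s : ℕ → ℕ := fun N => Nat.find (hstop N)
  have hs1 : ∀ N, s N = N ∨ N ∈ bad (s N) := fun N => Nat.find_spec (hstop N)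
  have hs2 : ∀ N i, i < s N → N ∉ bad i := fun N i hi hb =>
    Nat.find_min (hstop N) hi (Or.inr hb)
  -- gluing
  let f : ℕ → Plane → ℝ := fun N x => r⁻¹ * T (v (s N)) (x + p N)
  have hf : ∀ N, LipschitzWith 1 (f N) := by
    intro N
    apply LipschitzWith.of_dist_le_mul
    intro x y
    have h2 := (hT.lip (v (s N))).dist_le_mul (x + p N) (y + p N)
    rw [dist_add_right, Real.dist_eq, coe_nnnorm] at h2
    show dist (r⁻¹ * _) (r⁻¹ * _) ≤ _
    rw [Real.dist_eq, ← mul_sub, abs_mul, abs_of_pos (inv_pos.mpr hr), NNReal.coe_one, one_mul,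
      inv_mul_le_iff₀ hr]
    refine h2.trans ?_
    exact mul_le_mul_of_nonneg_right (hvr _) dist_nonneg
  obtain ⟨g, hg1, hg0, c, hgc⟩ := glue p R hR hp f hf
  obtain ⟨e0, he0⟩ := hT.surj g hg0 ⟨1, hg1⟩
  have he0n : ‖e0‖ ≤ 1 := by
    have h1 := hT.norm_le e0 1 (by rw [he0]; exact hg1)
    exact_mod_cast h1
  have hball : ∀ N, ∀ y : Plane, dist y (p N) ≤ R N →
      T (r • e0) y - T (v (s N)) y = r * c N := by
    intro N y hy
    have h1 := hgc N (y - p N) (by rwa [← dist_eq_norm])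
    rw [sub_add_cancel] at h1
    have h2 : T (r • e0) y = r * g y := by
      rw [map_smul, Pi.smul_apply, smul_eq_mul, he0]
    rw [h2, h1]
    show r * (r⁻¹ * T (v (s N)) (y - p N + p N) + c N) - T (v (s N)) y = r * c N
    rw [sub_add_cancel]
    field_simp
    ring
  have hval : ∀ k N, Λ k N (r • e0) = Λ k N (v (s N)) := by
    intro k N
    apply hΛs k N
    intro y hy
    rw [hball N y hy, hball N (p N) (by rw [dist_self]; exact (hR N).le)]
  refine ⟨r • e0, v, bad, ?_, hvr, fun i k hk => (hvS i).2 k hk, hind, ?_⟩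
  · rw [norm_smul, Real.norm_eq_abs, abs_of_pos hr]
    have := mul_le_mul_of_nonneg_left he0n hr.le
    linarith
  · intro k N i hki hiN hnot
    rw [hval]
    have hsi : i ≤ s N := by
      by_contra hlt
      rcases hs1 N with h1 | h1
      · omega
      · exact hnot (Set.mem_iUnion₂.mpr ⟨s N, Finset.mem_range.mpr (by omega), h1⟩)
    have htel : ∀ m, i ≤ m → m ≤ s N → |Λ k N (v m) - Λ k N (v i)| ≤
        ∑ l ∈ Finset.Ico i m, (2 : ℝ) ^ k * (1 / 2 : ℝ) ^ l := by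
      intro m him
      induction m, him using Nat.le_induction with
      | base => intro _; simp
      | succ m him ih =>
        intro hm
        rw [Finset.sum_Ico_succ_top him]
        have h1 := ih (by omega)
        have h2 : |Λ k N (v m) - Λ k N (v (m + 1))| ≤ (2 : ℝ) ^ k * (1 / 2 : ℝ) ^ m := by
          rw [← map_sub]
          have h3 := le_q hΛ N (v m - v (m + 1)) k
          have h4 : q Λ N (v m - v (m + 1)) ≤ (1 / 4 : ℝ) ^ m := not_lt.mp (hs2 N m (by omega))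
          have h5 : (Λ k N (v m - v (m + 1))) ^ 2 ≤ ((2 : ℝ) ^ k * (1 / 2 : ℝ) ^ m) ^ 2 := by
            have h6 : (1 / 2 : ℝ) ^ k * (Λ k N (v m - v (m + 1))) ^ 2 ≤ (1 / 4 : ℝ) ^ m :=
              h3.trans h4
            have h7 : (Λ k N (v m - v (m + 1))) ^ 2 =
                (2 : ℝ) ^ k * ((1 / 2 : ℝ) ^ k * (Λ k N (v m - v (m + 1))) ^ 2) := by
              rw [← mul_assoc, ← mul_pow]
              norm_num
            rw [h7]
            have h8 : (2 : ℝ) ^ k * ((1 / 2 : ℝ) ^ k * (Λ k N (v m - v (m + 1))) ^ 2) ≤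
                (2 : ℝ) ^ k * (1 / 4 : ℝ) ^ m := mul_le_mul_of_nonneg_left h6 (by positivity)
            refine h8.trans ?_
            have h9 : ((2 : ℝ) ^ k * (1 / 2 : ℝ) ^ m) ^ 2 =
                ((2 : ℝ) ^ k * (2 : ℝ) ^ k) * (1 / 4 : ℝ) ^ m := by
              rw [mul_pow, sq ((2 : ℝ) ^ k), ← pow_mul, mul_comm m 2, pow_mul]
              norm_num
            rw [h9]
            apply mul_le_mul_of_nonneg_right _ (by positivity)
            have h10 : (1 : ℝ) ≤ (2 : ℝ) ^ k := one_le_pow₀ (by norm_num)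
            nlinarith
          exact abs_le_of_sq_le_sq h5 (by positivity)
        have h11 : Λ k N (v (m + 1)) - Λ k N (v i) =
            (Λ k N (v m) - Λ k N (v i)) - (Λ k N (v m) - Λ k N (v (m + 1))) := by ring
        rw [h11]
        exact (abs_sub _ _).trans (add_le_add h1 h2)
    have h1 := htel (s N) hsi le_rfl
    rw [← Finset.mul_sum] at h1
    have h2 : ∑ l ∈ Finset.Ico i (s N), (1 / 2 : ℝ) ^ l ≤ 2 * (1 / 2 : ℝ) ^ i := by
      have h3 := geom_sum_Ico_le_of_lt_one (m := i) (n := s N) (x := (1 / 2 : ℝ))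
        (by norm_num) (by norm_num)
      refine h3.trans (le_of_eq ?_)
      ring
    exact h1.trans (mul_le_mul_of_nonneg_left h2 (by positivity))

section charges

variable {E : Type} [NormedAddCommGroup E] [NormedSpace ℝ E]

/-- The sequence `N ↦ ‖Λ N‖` on `A`, zero elsewhere. -/
noncomputable def thA (Λ : ℕ → (E →L[ℝ] ℝ)) (h : ∀ N, ‖Λ N‖ ≤ 1) (A : Set ℕ) : ℕ →ᵇ ℝ :=
  BoundedContinuousFunction.ofNormedAddCommGroupDiscrete (A.indicator fun N => ‖Λ N‖) 1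
    (fun N => by
      by_cases hN : N ∈ A
      · rw [Set.indicator_of_mem hN, norm_norm]
        exact h N
      · rw [Set.indicator_of_notMem hN, norm_zero]
        exact zero_le_one)

variable (Λ : ℕ → (E →L[ℝ] ℝ)) (h : ∀ N, ‖Λ N‖ ≤ 1)

theorem thA_mem {A : Set ℕ} {N : ℕ} (hN : N ∈ A) : thA Λ h A N = ‖Λ N‖ :=
  Set.indicator_of_mem hN (fun N => ‖Λ N‖)

theorem thA_notMem {A : Set ℕ} {N : ℕ} (hN : N ∉ A) : thA Λ h A N = 0 :=
  Set.indicator_of_notMem hN (fun N => ‖Λ N‖)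

theorem thA_nonneg (A : Set ℕ) (N : ℕ) : 0 ≤ thA Λ h A N := by
  by_cases hN : N ∈ A
  · rw [thA_mem Λ h hN]
    exact norm_nonneg _
  · rw [thA_notMem Λ h hN]

theorem thA_union {A B : Set ℕ} (hAB : Disjoint A B) :
    thA Λ h (A ∪ B) = thA Λ h A + thA Λ h B := by
  ext N
  show thA Λ h (A ∪ B) N = thA Λ h A N + thA Λ h B N
  by_cases hA : N ∈ A
  · rw [thA_mem Λ h (Or.inl hA : N ∈ A ∪ B), thA_mem Λ h hA,
      thA_notMem Λ h (Set.disjoint_left.mp hAB hA), add_zero]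
  · by_cases hB : N ∈ B
    · rw [thA_mem Λ h (Or.inr hB : N ∈ A ∪ B), thA_mem Λ h hB, thA_notMem Λ h hA, zero_add]
    · rw [thA_notMem Λ h hA, thA_notMem Λ h hB, thA_notMem Λ h (by
        rintro (h1 | h1)
        · exact hA h1
        · exact hB h1), add_zero]

/-- The charge of the functional `e ↦ ν (N ↦ Λ N e)`. -/
noncomputable def charge (ν : (ℕ →ᵇ ℝ) →L[ℝ] ℝ) (A : Set ℕ) : ℝ := tv ν (thA Λ h A)

theorem isCharge (ν : (ℕ →ᵇ ℝ) →L[ℝ] ℝ) (hν : ‖ν‖ ≤ 1) : IsCharge (charge Λ h ν) where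
  nonneg A := tv_nonneg ν (thA_nonneg Λ h A)
  le_one := by
    refine le_trans (tv_mono ν (h := oneSeq) ?_) ((tv_one_le ν).trans hν)
    intro N
    rw [thA_mem Λ h (Set.mem_univ N), oneSeq_apply]
    exact h N
  add A B hAB := by
    unfold charge
    rw [thA_union Λ h hAB, map_add]

end charges

/-- A functional nearly attains half of its norm. -/
theorem attain {E : Type} [NormedAddCommGroup E] [NormedSpace ℝ E] (χ : E →L[ℝ] ℝ) (t : ℝ)
    (ht : |t| ≤ ‖χ‖) : ∃ e : E, ‖e‖ ≤ 1 ∧ χ e = t / 2 := by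
  by_cases h0 : t = 0
  · refine ⟨0, by rw [norm_zero]; exact zero_le_one, ?_⟩
    rw [map_zero, h0, zero_div]
  · have ht0 : 0 < |t| := abs_pos.mpr h0
    obtain ⟨x, hx1, hx2⟩ := χ.exists_lt_apply_of_lt_opNorm (show |t| / 2 < ‖χ‖ by linarith)
    rw [Real.norm_eq_abs] at hx2
    have hpos : 0 < |χ x| := lt_trans (by positivity) hx2
    have hne : χ x ≠ 0 := abs_pos.mp hpos
    refine ⟨(t / 2 / χ x) • x, ?_, ?_⟩
    · rw [norm_smul, Real.norm_eq_abs, abs_div, abs_div, abs_of_pos (by norm_num : (0 : ℝ) < 2)]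
      have h1 : |t| / 2 / |χ x| ≤ 1 := by
        rw [div_le_one hpos]
        exact hx2.le
      have h2 : |t| / 2 / |χ x| * ‖x‖ ≤ 1 * 1 :=
        mul_le_mul h1 hx1.le (norm_nonneg _) zero_le_one
      linarith
    · rw [map_smul, smul_eq_mul]
      field_simp

/-- Control of the index sequence of a disjoint family with large charges. -/
theorem unbounded_index {m : ℕ → Set ℕ → ℝ} (hm : ∀ k, IsCharge (m k)) (B : ℕ → Set ℕ)
    (hB : ∀ i j, i ≠ j → Disjoint (B i) (B j)) (ε : ℝ) (hε : 0 < ε) (k : ℕ → ℕ)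
    (hk : ∀ i, ε ≤ m (k i) (B i)) (K : ℕ) : ∃ i, K ≤ k i := by
  by_contra hcon
  push Not at hcon
  obtain ⟨n, hn⟩ := exists_nat_gt ((K : ℝ) / ε)
  rw [div_lt_iff₀ hε] at hn
  have h1 : (n : ℝ) * ε ≤ ∑ i ∈ Finset.range n, ∑ κ ∈ Finset.range K, m κ (B i) := by
    have h2 : ∑ i ∈ Finset.range n, ε ≤ ∑ i ∈ Finset.range n, ∑ κ ∈ Finset.range K, m κ (B i) := by
      apply Finset.sum_le_sum
      intro i _
      refine (hk i).trans ?_
      exact Finset.single_le_sum (f := fun κ => m κ (B i)) (fun κ _ => (hm κ).nonneg _)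
        (Finset.mem_range.mpr (hcon i))
    rw [Finset.sum_const, Finset.card_range, nsmul_eq_mul] at h2
    exact h2
  rw [Finset.sum_comm] at h1
  have h3 : ∑ κ ∈ Finset.range K, ∑ i ∈ Finset.range n, m κ (B i) ≤
      ∑ κ ∈ Finset.range K, (1 : ℝ) := Finset.sum_le_sum fun κ _ => (hm κ).sum_le _ _ hB
  rw [Finset.sum_const, Finset.card_range, nsmul_eq_mul, mul_one] at h3
  linarith

/-- Pointwise convergence of internal functionals forces uniform exhaustivity of the charges. -/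
theorem uexh_of_tendsto {E : Type} [NormedAddCommGroup E] [NormedSpace ℝ E]
    {T : E →ₗ[ℝ] (Plane → ℝ)} (hT : IsLipModel E T)
    (p : ℕ → Plane) (R : ℕ → ℝ) (hR : ∀ n, 0 < R n)
    (hp : ∀ m n, m ≠ n → 2 * (R m + R n) ≤ dist (p m) (p n))
    (Λ : ℕ → ℕ → (E →L[ℝ] ℝ)) (hΛ : ∀ k N, ‖Λ k N‖ ≤ 1)
    (hΛs : ∀ k N, SupportedIn T (p N) (R N) (Λ k N))
    (ν : ℕ → ((ℕ →ᵇ ℝ) →L[ℝ] ℝ)) (hν : ∀ k, ‖ν k‖ ≤ 1)
    (φ : ℕ → (E →L[ℝ] ℝ)) (hφ : ∀ k e, φ k e = ν k (bseq (Λ k) (hΛ k) e))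
    (hconv : ∀ x : E, ∃ l : ℝ, Tendsto (fun k => φ k x) atTop (𝓝 l)) :
    UExh (fun k => charge (Λ k) (hΛ k) (ν k)) := by
  classical
  intro B hB ε hε
  by_contra hcon
  push Not at hcon
  choose k hk using hcon
  obtain ⟨s, hs, hs2⟩ := rosenthal (ε / 8) (by positivity)
    (fun i => charge (Λ (k i)) (hΛ (k i)) (ν (k i))) B (fun i => isCharge _ _ _ (hν _)) hB
  choose g hg1 hg2 using fun i => tv_near (ν (k (s i)))
    (thA_nonneg (Λ (k (s i))) (hΛ (k (s i))) (B (s i))) (ε / 8) (by positivity)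
  have hgθ : ∀ i N, |g i N| ≤ ‖Λ (k (s i)) N‖ := by
    intro i N
    refine (hg1 i N).trans ?_
    by_cases hN : N ∈ B (s i)
    · rw [thA_mem _ _ hN]
    · rw [thA_notMem _ _ hN]
      exact norm_nonneg _
  choose a ha1 ha2 using fun i N => attain (Λ (k (s i)) N) (g i N) (hgθ i N)
  -- the glued element, using only even indices
  let b : ℕ → E := fun N => if h : ∃ i, N ∈ B (s (2 * i)) then a (2 * Classical.choose h) N else 0
  have hb_mem : ∀ i N, N ∈ B (s (2 * i)) → b N = a (2 * i) N := by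
    intro i N hN
    have h : ∃ i, N ∈ B (s (2 * i)) := ⟨i, hN⟩
    have h1 : Classical.choose h = i := by
      by_contra hne
      have h2 := Classical.choose_spec h
      exact Set.disjoint_left.mp (hB _ _ (fun h3 => hne (by
        have := hs h3
        omega))) h2 hN
    simp only [b, dif_pos h, h1]
  have hb_not : ∀ N, (¬ ∃ i, N ∈ B (s (2 * i))) → b N = 0 := by
    intro N h
    simp only [b, dif_neg h]
  have hb1 : ∀ N, ‖b N‖ ≤ 1 := by
    intro N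
    by_cases h : ∃ i, N ∈ B (s (2 * i))
    · obtain ⟨i, hi⟩ := h
      rw [hb_mem i N hi]
      exact ha1 _ _
    · rw [hb_not N h, norm_zero]
      exact zero_le_one
  let f : ℕ → Plane → ℝ := fun N x => T (b N) (x + p N)
  have hf : ∀ N, LipschitzWith 1 (f N) := by
    intro N
    apply LipschitzWith.of_dist_le_mul
    intro x y
    have h2 := (hT.lip (b N)).dist_le_mul (x + p N) (y + p N)
    rw [dist_add_right, coe_nnnorm] at h2
    refine h2.trans ?_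
    rw [NNReal.coe_one]
    exact mul_le_mul_of_nonneg_right (hb1 N) dist_nonneg
  obtain ⟨G, hG1, hG0, c, hGc⟩ := glue p R hR hp f hf
  obtain ⟨e0, he0⟩ := hT.surj G hG0 ⟨1, hG1⟩
  have hball : ∀ N, ∀ y : Plane, dist y (p N) ≤ R N → T e0 y - T (b N) y = c N := by
    intro N y hy
    have h1 := hGc N (y - p N) (by rwa [← dist_eq_norm])
    rw [sub_add_cancel] at h1
    rw [he0, h1]
    show T (b N) (y - p N + p N) + c N - T (b N) y = c N
    rw [sub_add_cancel]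
    ring
  have hval : ∀ κ N, Λ κ N e0 = Λ κ N (b N) := by
    intro κ N
    apply hΛs κ N
    intro y hy
    rw [hball N y hy, hball N (p N) (by rw [dist_self]; exact (hR N).le)]
  have hbθ : ∀ κ N, |Λ κ N (b N)| ≤ ‖Λ κ N‖ := by
    intro κ N
    have h1 := (Λ κ N).le_opNorm (b N)
    have h2 := mul_le_mul_of_nonneg_left (hb1 N) (norm_nonneg (Λ κ N))
    rw [Real.norm_eq_abs] at h1
    linarith
  -- large values along even indices
  have heven : ∀ i, ε / 4 < φ (k (s (2 * i))) e0 := by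
    intro i
    have h1 : |ν (k (s (2 * i))) (bseq (Λ (k (s (2 * i)))) (hΛ _) e0 - (1 / 2 : ℝ) • g (2 * i))| ≤
        charge (Λ (k (s (2 * i)))) (hΛ _) (ν (k (s (2 * i))))
          (⋃ j ∈ {j : ℕ | j ≠ 2 * i}, B (s j)) := by
      apply abs_le_tv
      intro N
      show |Λ (k (s (2 * i))) N e0 - (1 / 2 : ℝ) * g (2 * i) N| ≤ _
      rw [hval]
      by_cases hN : N ∈ B (s (2 * i))
      · rw [hb_mem i N hN, ha2]
        have h3 : g (2 * i) N / 2 - 1 / 2 * g (2 * i) N = 0 := by ring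
        rw [h3, abs_zero]
        exact thA_nonneg _ _ _ _
      · have h4 : g (2 * i) N = 0 := by
          have h5 := hg1 (2 * i) N
          rw [thA_notMem _ _ hN] at h5
          exact abs_nonpos_iff.mp h5
        rw [h4, mul_zero, sub_zero]
        by_cases hN2 : ∃ j, N ∈ B (s (2 * j))
        · obtain ⟨j, hj⟩ := hN2
          rw [thA_mem _ _ (Set.mem_iUnion₂.mpr ⟨2 * j, (fun h6 => hN (by
            rw [← h6]
            exact hj)), hj⟩)]
          exact hbθ _ _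
        · rw [hb_not N hN2, map_zero, abs_zero]
          exact thA_nonneg _ _ _ _
    rw [map_sub, map_smul, smul_eq_mul, ← hφ] at h1
    have h2 := hs2 (2 * i)
    have h3 := hg2 (2 * i)
    have h4 := hk (s (2 * i))
    have h5 : charge (Λ (k (s (2 * i)))) (hΛ _) (ν (k (s (2 * i)))) (B (s (2 * i))) - ε / 8 <
      ν (k (s (2 * i))) (g (2 * i)) := h3
    have h6 := (abs_le.mp h1).1
    linarith
  have hodd : ∀ i, φ (k (s (2 * i + 1))) e0 < ε / 8 := by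
    intro i
    have h1 : |ν (k (s (2 * i + 1))) (bseq (Λ (k (s (2 * i + 1)))) (hΛ _) e0)| ≤
        charge (Λ (k (s (2 * i + 1)))) (hΛ _) (ν (k (s (2 * i + 1))))
          (⋃ j ∈ {j : ℕ | j ≠ 2 * i + 1}, B (s j)) := by
      apply abs_le_tv
      intro N
      show |Λ (k (s (2 * i + 1))) N e0| ≤ _
      rw [hval]
      by_cases hN2 : ∃ j, N ∈ B (s (2 * j))
      · obtain ⟨j, hj⟩ := hN2
        rw [thA_mem _ _ (Set.mem_iUnion₂.mpr ⟨2 * j, (fun h6 => by omega), hj⟩)]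
        exact hbθ _ _
      · rw [hb_not N hN2, map_zero, abs_zero]
        exact thA_nonneg _ _ _ _
    rw [← hφ] at h1
    have h2 := hs2 (2 * i + 1)
    have h3 := (abs_le.mp h1).2
    linarith
  obtain ⟨l, hl⟩ := hconv e0
  have hcharge : ∀ κ, IsCharge (charge (Λ κ) (hΛ κ) (ν κ)) := fun κ => isCharge _ _ _ (hν κ)
  have h1 : ε / 4 ≤ l := by
    by_contra hlt
    push Not at hlt
    obtain ⟨K, hK⟩ := eventually_atTop.mp (hl.eventually_lt_const hlt)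
    obtain ⟨i, hi⟩ := unbounded_index hcharge (fun i => B (s (2 * i)))
      (fun i j hij => hB _ _ (fun h3 => hij (by
        have := hs h3
        omega))) ε hε (fun i => k (s (2 * i))) (fun i => hk _) K
    have h2 := hK _ hi
    have h3 := heven i
    linarith
  have h2 : l ≤ ε / 8 := by
    by_contra hlt
    push Not at hlt
    obtain ⟨K, hK⟩ := eventually_atTop.mp (hl.eventually_const_lt hlt)
    obtain ⟨i, hi⟩ := unbounded_index hcharge (fun i => B (s (2 * i + 1)))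
      (fun i j hij => hB _ _ (fun h3 => hij (by
        have := hs h3
        omega))) ε hε (fun i => k (s (2 * i + 1))) (fun i => hk _) K
    have h2 := hK _ hi
    have h3 := hodd i
    linarith
  linarith

section lam

variable {E : Type} [NormedAddCommGroup E] [NormedSpace ℝ E]

/-- The sequence `N ↦ ‖Λ N‖ g N`. -/
noncomputable def mulT (Λ : ℕ → (E →L[ℝ] ℝ)) (h : ∀ N, ‖Λ N‖ ≤ 1) (g : ℕ →ᵇ ℝ) : ℕ →ᵇ ℝ :=
  BoundedContinuousFunction.ofNormedAddCommGroupDiscrete (fun N => ‖Λ N‖ * g N) ‖g‖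
    (fun N => by
      rw [norm_mul, norm_norm]
      have h1 := g.norm_coe_le_norm N
      have h2 := mul_le_mul (h N) h1 (norm_nonneg _) zero_le_one
      linarith)

theorem mulT_apply (Λ : ℕ → (E →L[ℝ] ℝ)) (h : ∀ N, ‖Λ N‖ ≤ 1) (g : ℕ →ᵇ ℝ) (N : ℕ) :
    mulT Λ h g N = ‖Λ N‖ * g N := rfl

theorem mulT_ind (Λ : ℕ → (E →L[ℝ] ℝ)) (h : ∀ N, ‖Λ N‖ ≤ 1) (A : Set ℕ) :
    mulT Λ h (ind A) = thA Λ h A := by
  ext N
  rw [mulT_apply]
  by_cases hN : N ∈ A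
  · rw [ind_mem hN, thA_mem Λ h hN, mul_one]
  · rw [ind_notMem hN, thA_notMem Λ h hN, mul_zero]

theorem abs_tv_mulT_le (Λ : ℕ → (E →L[ℝ] ℝ)) (h : ∀ N, ‖Λ N‖ ≤ 1) (ν : (ℕ →ᵇ ℝ) →L[ℝ] ℝ)
    (hν : ‖ν‖ ≤ 1) (g : ℕ →ᵇ ℝ) : |tv ν (mulT Λ h g)| ≤ ‖g‖ := by
  have h1 : ∀ N, |mulT Λ h g N| ≤ ‖g‖ := by
    intro N
    rw [mulT_apply, abs_mul, abs_of_nonneg (norm_nonneg (Λ N))]
    have h1 := g.norm_coe_le_norm N
    rw [Real.norm_eq_abs] at h1
    have h2 := mul_le_mul (h N) h1 (abs_nonneg _) zero_le_one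
    linarith
  have h2 : tv ν (mulT Λ h g) ≤ tv ν (‖g‖ • oneSeq) := tv_mono ν (fun N => by
    show mulT Λ h g N ≤ ‖g‖ * 1
    have := (abs_le.mp (h1 N)).2
    linarith)
  have h3 : tv ν ((-‖g‖) • oneSeq) ≤ tv ν (mulT Λ h g) := tv_mono ν (fun N => by
    show (-‖g‖) * 1 ≤ mulT Λ h g N
    have := (abs_le.mp (h1 N)).1
    linarith)
  rw [map_smul, smul_eq_mul] at h2 h3
  have h4 := (tv_one_le ν).trans hν
  have h5 : 0 ≤ tv ν oneSeq := tv_nonneg ν (fun N => zero_le_one)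
  have h6 := norm_nonneg g
  have h7 : ‖g‖ * tv ν oneSeq ≤ ‖g‖ * 1 := mul_le_mul_of_nonneg_left h4 h6
  rw [abs_le]
  constructor <;> linarith

variable (Λ : ℕ → ℕ → (E →L[ℝ] ℝ)) (hΛ : ∀ k N, ‖Λ k N‖ ≤ 1) (ν : ℕ → ((ℕ →ᵇ ℝ) →L[ℝ] ℝ))
  (hν : ∀ k, ‖ν k‖ ≤ 1)

include hν in
theorem lam_bound (g : ℕ →ᵇ ℝ) (k : ℕ) :
    |(1 / 2 : ℝ) ^ (k + 1) * tv (ν k) (mulT (Λ k) (hΛ k) g)| ≤ (1 / 2 : ℝ) ^ (k + 1) * ‖g‖ := by
  rw [abs_mul, abs_of_pos (by positivity : (0 : ℝ) < (1 / 2) ^ (k + 1))]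
  exact mul_le_mul_of_nonneg_left (abs_tv_mulT_le (Λ k) (hΛ k) (ν k) (hν k) g) (by positivity)

theorem sum_half : Summable (fun k : ℕ => (1 / 2 : ℝ) ^ (k + 1)) := by
  have h1 : Summable (fun k : ℕ => (1 / 2 : ℝ) ^ k) :=
    summable_geometric_of_lt_one (by norm_num) (by norm_num)
  exact (summable_nat_add_iff 1).mpr h1

theorem tsum_half : ∑' k : ℕ, (1 / 2 : ℝ) ^ (k + 1) = 1 := by
  have h1 : ∀ k : ℕ, (1 / 2 : ℝ) ^ (k + 1) = (1 / 2 : ℝ) * (1 / 2 : ℝ) ^ k := fun k => by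
    rw [pow_succ]
    ring
  rw [tsum_congr h1, tsum_mul_left, tsum_geometric_two]
  norm_num

include hν in
theorem lam_summable (g : ℕ →ᵇ ℝ) :
    Summable (fun k => (1 / 2 : ℝ) ^ (k + 1) * tv (ν k) (mulT (Λ k) (hΛ k) g)) := by
  apply Summable.of_norm_bounded (sum_half.mul_right ‖g‖)
  intro k
  exact lam_bound Λ hΛ ν hν g k

/-- The dominating functional. -/
noncomputable def lamF : (ℕ →ᵇ ℝ) →L[ℝ] ℝ :=
  LinearMap.mkContinuous
    { toFun := fun g => ∑' k, (1 / 2 : ℝ) ^ (k + 1) * tv (ν k) (mulT (Λ k) (hΛ k) g)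
      map_add' := by
        intro a b
        rw [← Summable.tsum_add (lam_summable Λ hΛ ν hν a) (lam_summable Λ hΛ ν hν b)]
        apply tsum_congr
        intro k
        have h1 : mulT (Λ k) (hΛ k) (a + b) = mulT (Λ k) (hΛ k) a + mulT (Λ k) (hΛ k) b := by
          ext N
          show ‖Λ k N‖ * (a N + b N) = ‖Λ k N‖ * a N + ‖Λ k N‖ * b N
          ring
        rw [h1, map_add]
        ring
      map_smul' := by
        intro c a
        rw [RingHom.id_apply, smul_eq_mul, ← tsum_mul_left]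
        apply tsum_congr
        intro k
        have h1 : mulT (Λ k) (hΛ k) (c • a) = c • mulT (Λ k) (hΛ k) a := by
          ext N
          show ‖Λ k N‖ * (c * a N) = c * (‖Λ k N‖ * a N)
          ring
        rw [h1, map_smul, smul_eq_mul]
        ring } 1
    (by
      intro g
      have h1 := (lam_summable Λ hΛ ν hν g).norm
      have h2 : ‖∑' k, (1 / 2 : ℝ) ^ (k + 1) * tv (ν k) (mulT (Λ k) (hΛ k) g)‖ ≤
          ∑' k, ‖(1 / 2 : ℝ) ^ (k + 1) * tv (ν k) (mulT (Λ k) (hΛ k) g)‖ :=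
        norm_tsum_le_tsum_norm h1
      have h3 : ∑' k, ‖(1 / 2 : ℝ) ^ (k + 1) * tv (ν k) (mulT (Λ k) (hΛ k) g)‖ ≤
          ∑' k : ℕ, (1 / 2 : ℝ) ^ (k + 1) * ‖g‖ :=
        Summable.tsum_le_tsum (fun k => lam_bound Λ hΛ ν hν g k) h1 (sum_half.mul_right ‖g‖)
      rw [tsum_mul_right, tsum_half] at h3
      exact h2.trans h3)

theorem lamF_apply (g : ℕ →ᵇ ℝ) : lamF Λ hΛ ν hν g =
    ∑' k, (1 / 2 : ℝ) ^ (k + 1) * tv (ν k) (mulT (Λ k) (hΛ k) g) := rfl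

theorem mulT_nonneg {g : ℕ →ᵇ ℝ} (hg : ∀ N, 0 ≤ g N) (k N : ℕ) :
    0 ≤ mulT (Λ k) (hΛ k) g N := by
  rw [mulT_apply]
  exact mul_nonneg (norm_nonneg _) (hg N)

theorem lamF_nonneg (g : ℕ →ᵇ ℝ) (hg : ∀ N, 0 ≤ g N) : 0 ≤ lamF Λ hΛ ν hν g := by
  rw [lamF_apply]
  apply tsum_nonneg
  intro k
  exact mul_nonneg (by positivity) (tv_nonneg (ν k) (mulT_nonneg Λ hΛ hg k))

theorem lamF_ind (A : Set ℕ) : lamF Λ hΛ ν hν (ind A) =
    ∑' k, (1 / 2 : ℝ) ^ (k + 1) * charge (Λ k) (hΛ k) (ν k) A := by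
  rw [lamF_apply]
  apply tsum_congr
  intro k
  rw [mulT_ind]
  rfl

theorem lamF_charge : IsCharge (fun A => lamF Λ hΛ ν hν (ind A)) where
  nonneg A := lamF_nonneg Λ hΛ ν hν _ (ind_nonneg A)
  le_one := by
    show lamF Λ hΛ ν hν (ind Set.univ) ≤ 1
    rw [lamF_ind]
    refine le_trans ?_ (le_of_eq tsum_half)
    have h1 : ∀ k, (1 / 2 : ℝ) ^ (k + 1) * charge (Λ k) (hΛ k) (ν k) Set.univ ≤
        (1 / 2 : ℝ) ^ (k + 1) := by
      intro k
      have h2 := (isCharge (Λ k) (hΛ k) (ν k) (hν k)).le_one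
      have h3 : (1 / 2 : ℝ) ^ (k + 1) * charge (Λ k) (hΛ k) (ν k) Set.univ ≤
        (1 / 2 : ℝ) ^ (k + 1) * 1 := mul_le_mul_of_nonneg_left h2 (by positivity)
      linarith
    refine Summable.tsum_le_tsum h1 ?_ sum_half
    exact Summable.of_nonneg_of_le (fun k => mul_nonneg (by positivity)
      ((isCharge (Λ k) (hΛ k) (ν k) (hν k)).nonneg _)) h1 sum_half
  add A B hAB := by
    show lamF Λ hΛ ν hν (ind (A ∪ B)) = lamF Λ hΛ ν hν (ind A) + lamF Λ hΛ ν hν (ind B)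
    rw [← map_add]
    congr 1
    ext N
    show ind (A ∪ B) N = ind A N + ind B N
    by_cases hA : N ∈ A
    · rw [ind_mem (Or.inl hA : N ∈ A ∪ B), ind_mem hA,
        ind_notMem (Set.disjoint_left.mp hAB hA), add_zero]
    · by_cases hB : N ∈ B
      · rw [ind_mem (Or.inr hB : N ∈ A ∪ B), ind_mem hB, ind_notMem hA, zero_add]
      · rw [ind_notMem hA, ind_notMem hB, ind_notMem (by
          rintro (h1 | h1)
          · exact hA h1
          · exact hB h1), add_zero]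

theorem charge_le_lamF (k : ℕ) (A : Set ℕ) : charge (Λ k) (hΛ k) (ν k) A ≤
    (2 : ℝ) ^ (k + 1) * lamF Λ hΛ ν hν (ind A) := by
  have hnn : ∀ k, 0 ≤ (1 / 2 : ℝ) ^ (k + 1) * charge (Λ k) (hΛ k) (ν k) A := fun k =>
    mul_nonneg (by positivity) ((isCharge (Λ k) (hΛ k) (ν k) (hν k)).nonneg _)
  have hs : Summable (fun k => (1 / 2 : ℝ) ^ (k + 1) * charge (Λ k) (hΛ k) (ν k) A) := by
    have h1 := lam_summable Λ hΛ ν hν (ind A)
    refine h1.congr ?_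
    intro k
    rw [mulT_ind]
    rfl
  have h1 : (1 / 2 : ℝ) ^ (k + 1) * charge (Λ k) (hΛ k) (ν k) A ≤ lamF Λ hΛ ν hν (ind A) := by
    rw [lamF_ind]
    exact hs.le_tsum k (fun j _ => hnn j)
  have h2 := mul_le_mul_of_nonneg_left h1 (by positivity : (0 : ℝ) ≤ 2 ^ (k + 1))
  rw [← mul_assoc, ← mul_pow] at h2
  norm_num at h2
  exact h2

end lam

/-- Uniform exhaustivity: elements of the bidual act on the sequence like functions. -/
theorem act {E : Type} [NormedAddCommGroup E] [NormedSpace ℝ E]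
    {T : E →ₗ[ℝ] (Plane → ℝ)} (hT : IsLipModel E T)
    (p : ℕ → Plane) (R : ℕ → ℝ) (hR : ∀ n, 0 < R n)
    (hp : ∀ m n, m ≠ n → 2 * (R m + R n) ≤ dist (p m) (p n))
    (Λ : ℕ → ℕ → (E →L[ℝ] ℝ)) (hΛ : ∀ k N, ‖Λ k N‖ ≤ 1)
    (hΛs : ∀ k N, SupportedIn T (p N) (R N) (Λ k N))
    (ν : ℕ → ((ℕ →ᵇ ℝ) →L[ℝ] ℝ)) (hν : ∀ k, ‖ν k‖ ≤ 1)
    (hfin : ∀ k (g : ℕ →ᵇ ℝ), (∀ᶠ N in atTop, g N = 0) → ν k g = 0)
    (φ : ℕ → (E →L[ℝ] ℝ)) (hφ : ∀ k e, φ k e = ν k (bseq (Λ k) (hΛ k) e))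
    (hU : UExh (fun k => charge (Λ k) (hΛ k) (ν k)))
    (ψ : (E →L[ℝ] ℝ) →L[ℝ] ℝ) (r : ℝ) (hr : 0 < r) (hψ : ‖ψ‖ ≤ r) (η : ℝ) (hη : 0 < η) :
    ∃ e : E, ‖e‖ ≤ r ∧ ∀ k, |φ k e - ψ (φ k)| ≤ η := by
  have hcharge : ∀ κ, IsCharge (charge (Λ κ) (hΛ κ) (ν κ)) := fun κ => isCharge _ _ _ (hν κ)
  obtain ⟨δ, hδ, huac⟩ := uac hcharge hU (lamF_charge Λ hΛ ν hν)
    (fun k => ⟨(2 : ℝ) ^ (k + 1), fun A => charge_le_lamF Λ hΛ ν hν k A⟩) (η / (8 * r))
    (by positivity)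
  obtain ⟨e, v, bad, he, hv, hvφ, hbad, hmain⟩ := approx hT p R hR hp Λ hΛ hΛs
    (lamF Λ hΛ ν hν) (lamF_nonneg Λ hΛ ν hν) φ ψ r hr hψ (δ / 4) (by positivity)
  refine ⟨e, he, ?_⟩
  intro k
  have hstep : ∀ i, k < i → |φ k e - ψ (φ k)| ≤
      (2 : ℝ) ^ k * (2 * (1 / 2 : ℝ) ^ i) + η / 4 + 1 / ((i : ℝ) + 1) := by
    intro i hki
    let bad' : Set ℕ := ⋃ l ∈ Finset.range i, bad l
    have hlam' : lamF Λ hΛ ν hν (ind bad') < δ := by
      have h1 := (lamF_charge Λ hΛ ν hν).biUnion_le (Finset.range i) bad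
      have h2 : ∑ l ∈ Finset.range i, lamF Λ hΛ ν hν (ind (bad l)) ≤
          ∑ l ∈ Finset.range i, δ / 4 * (1 / 2 : ℝ) ^ l := Finset.sum_le_sum fun l _ => hbad l
      rw [← Finset.mul_sum] at h2
      have h5 := geom_sum_Ico_le_of_lt_one (m := 0) (n := i) (x := (1 / 2 : ℝ))
              (by norm_num) (by norm_num)
      rw [← Finset.range_eq_Ico] at h5
      have h6 : (1 / 2 : ℝ) ^ 0 / (1 - 1 / 2) = 2 := by norm_num
      rw [h6] at h5
      have h7 := mul_le_mul_of_nonneg_left h5 (by positivity : (0 : ℝ) ≤ δ / 4)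
      have h8 : lamF Λ hΛ ν hν (ind bad') ≤ ∑ l ∈ Finset.range i, lamF Λ hΛ ν hν (ind (bad l)) :=
        h1
      linarith
    have hch := huac bad' hlam' k
    let H : ℕ →ᵇ ℝ := ((2 : ℝ) ^ k * (2 * (1 / 2 : ℝ) ^ i)) • oneSeq +
      (2 * r) • thA (Λ k) (hΛ k) bad' + (2 * r) • ind {N | N < i}
    have hHval : ∀ N, H N = (2 : ℝ) ^ k * (2 * (1 / 2 : ℝ) ^ i) * 1 +
        (2 * r) * thA (Λ k) (hΛ k) bad' N + (2 * r) * ind {N | N < i} N := fun N => rfl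
    have hdom : ∀ N, |(bseq (Λ k) (hΛ k) e - bseq (Λ k) (hΛ k) (v i)) N| ≤ H N := by
      intro N
      show |Λ k N e - Λ k N (v i)| ≤ H N
      rw [hHval]
      have hA : 0 ≤ (2 : ℝ) ^ k * (2 * (1 / 2 : ℝ) ^ i) * 1 := by positivity
      have hB : 0 ≤ (2 * r) * thA (Λ k) (hΛ k) bad' N :=
        mul_nonneg (by positivity) (thA_nonneg _ _ _ _)
      have hC : 0 ≤ (2 * r) * ind {N | N < i} N :=
        mul_nonneg (by positivity) (ind_nonneg _ _)
      have htriv : |Λ k N e - Λ k N (v i)| ≤ 2 * r * ‖Λ k N‖ := by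
        rw [← map_sub]
        have h1 := (Λ k N).le_opNorm (e - v i)
        rw [Real.norm_eq_abs] at h1
        have h2 : ‖e - v i‖ ≤ 2 * r := by
          refine (norm_sub_le _ _).trans ?_
          have := hv i
          linarith
        have h3 := mul_le_mul_of_nonneg_left h2 (norm_nonneg (Λ k N))
        linarith
      by_cases hNi : N < i
      · rw [ind_mem (show N ∈ {N | N < i} from hNi)]
        have h4 : 2 * r * ‖Λ k N‖ ≤ 2 * r * 1 :=
          mul_le_mul_of_nonneg_left (hΛ k N) (by positivity)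
        linarith
      · by_cases hNb : N ∈ bad'
        · rw [thA_mem _ _ hNb]
          linarith
        · have h4 := hmain k N i hki (not_lt.mp hNi) hNb
          linarith
    have h1 := abs_le_tv (ν k) hdom
    rw [map_sub, ← hφ, ← hφ] at h1
    have h2 : tv (ν k) H ≤ (2 : ℝ) ^ k * (2 * (1 / 2 : ℝ) ^ i) + η / 4 := by
      simp only [H]
      rw [map_add, map_add, map_smul, map_smul, map_smul]
      rw [tv_fin (ν k) (hfin k) (ind {N | N < i}) (by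
        filter_upwards [eventually_ge_atTop i] with N hN
        exact ind_notMem (fun h => absurd h (not_lt.mpr hN)))]
      simp only [smul_eq_mul, mul_zero, add_zero]
      have h3 : (2 : ℝ) ^ k * (2 * (1 / 2 : ℝ) ^ i) * tv (ν k) oneSeq ≤
          (2 : ℝ) ^ k * (2 * (1 / 2 : ℝ) ^ i) * 1 :=
        mul_le_mul_of_nonneg_left ((tv_one_le (ν k)).trans (hν k)) (by positivity)
      have h4 : (2 * r) * tv (ν k) (thA (Λ k) (hΛ k) bad') ≤ (2 * r) * (η / (8 * r)) :=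
        mul_le_mul_of_nonneg_left hch.le (by positivity)
      have h5 : (2 * r) * (η / (8 * r)) = η / 4 := by
        field_simp
        norm_num
      linarith
    have h3 := hvφ i k hki
    have h4 : φ k e - ψ (φ k) = (φ k e - φ k (v i)) + (φ k (v i) - ψ (φ k)) := by ring
    rw [h4]
    refine (abs_add_le _ _).trans ?_
    linarith
  have hlim : Tendsto (fun i : ℕ => (2 : ℝ) ^ k * (2 * (1 / 2 : ℝ) ^ i) + η / 4 +
      1 / ((i : ℝ) + 1)) atTop (𝓝 ((2 : ℝ) ^ k * (2 * 0) + η / 4 + 0)) := by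
    apply Tendsto.add _ tendsto_one_div_add_atTop_nhds_zero_nat
    apply Tendsto.add_const
    apply Tendsto.const_mul
    apply Tendsto.const_mul
    exact tendsto_pow_atTop_nhds_zero_of_lt_one (by norm_num) (by norm_num)
  have h5 : |φ k e - ψ (φ k)| ≤ (2 : ℝ) ^ k * (2 * 0) + η / 4 + 0 := by
    apply ge_of_tendsto hlim
    filter_upwards [eventually_gt_atTop k] with i hi
    exact hstep i hi
  linarith

theorem result :
    ∀ (E : Type) [NormedAddCommGroup E] [NormedSpace ℝ E] (T : E →ₗ[ℝ] (Plane → ℝ)),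
      IsLipModel E T →
    ∀ (p : ℕ → Plane) (R : ℕ → ℝ), (∀ n, 0 < R n) →
      (∀ m n, m ≠ n → 2 * (R m + R n) ≤ dist (p m) (p n)) →
    ∀ (Λ : ℕ → ℕ → (E →L[ℝ] ℝ)) (hΛ : ∀ k N, ‖Λ k N‖ ≤ 1),
      (∀ k N, SupportedIn T (p N) (R N) (Λ k N)) →
    ∀ ν : ℕ → ((ℕ →ᵇ ℝ) →L[ℝ] ℝ), (∀ k, ‖ν k‖ ≤ 1) →
      (∀ k (g : ℕ →ᵇ ℝ), (∀ᶠ N in atTop, g N = 0) → ν k g = 0) →
    ∀ φ : ℕ → (E →L[ℝ] ℝ), (∀ k e, φ k e = ν k (bseq (Λ k) (hΛ k) e)) →
      ((∀ x : E, Tendsto (fun k => φ k x) atTop (𝓝 0)) →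
        ∀ ψ : (E →L[ℝ] ℝ) →L[ℝ] ℝ, Tendsto (fun k => ψ (φ k)) atTop (𝓝 0)) ∧
      ((∀ x : E, ∃ l : ℝ, Tendsto (fun k => φ k x) atTop (𝓝 l)) →
        ∀ ψ : (E →L[ℝ] ℝ) →L[ℝ] ℝ, ∃ l : ℝ, Tendsto (fun k => ψ (φ k)) atTop (𝓝 l)) ∧
      ((∀ B : ℕ → Set ℕ, (∀ i j, i ≠ j → Disjoint (B i) (B j)) → ∀ ε > 0, ∃ i, ∀ k,
          ∀ g : ℕ →ᵇ ℝ, (∀ N, |g N| ≤ 1) → (∀ N, N ∉ B i → g N = 0) → |ν k g| ≤ ε) →
        ∀ ψ : (E →L[ℝ] ℝ) →L[ℝ] ℝ, ∀ η > 0, ∃ e : E, ‖e‖ ≤ ‖ψ‖ + η ∧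
          ∀ k, |φ k e - ψ (φ k)| ≤ η) := by
  intro E _ _ T hT p R hR hp Λ hΛ hΛs ν hν hfin φ hφ
  have hact : UExh (fun k => charge (Λ k) (hΛ k) (ν k)) →
      ∀ ψ : (E →L[ℝ] ℝ) →L[ℝ] ℝ, ∀ η > 0, ∃ e : E, ‖e‖ ≤ ‖ψ‖ + η ∧
          ∀ k, |φ k e - ψ (φ k)| ≤ η := by
    intro hU ψ η hη
    exact act hT p R hR hp Λ hΛ hΛs ν hν hfin φ hφ hU ψ (‖ψ‖ + η) (by positivity)
      (by linarith) η hη
  refine ⟨?_, ?_, ?_⟩
  · intro hnull ψ
    have hU := uexh_of_tendsto hT p R hR hp Λ hΛ hΛs ν hν φ hφ (fun x => ⟨0, hnull x⟩)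
    rw [Metric.tendsto_atTop]
    intro ε hε
    obtain ⟨e, -, he⟩ := hact hU ψ (ε / 2) (by positivity)
    obtain ⟨K, hK⟩ := Metric.tendsto_atTop.mp (hnull e) (ε / 2) (by positivity)
    refine ⟨K, fun k hk => ?_⟩
    have h2 := hK k hk
    have h3 := he k
    rw [Real.dist_eq, sub_zero] at h2 ⊢
    have h4 : ψ (φ k) = φ k e - (φ k e - ψ (φ k)) := by ring
    rw [h4]
    refine lt_of_le_of_lt (abs_sub _ _) ?_
    linarith
  · intro hconv ψ
    have hU := uexh_of_tendsto hT p R hR hp Λ hΛ hΛs ν hν φ hφ hconv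
    apply cauchySeq_tendsto_of_complete
    rw [Metric.cauchySeq_iff]
    intro ε hε
    obtain ⟨e, -, he⟩ := hact hU ψ (ε / 4) (by positivity)
    obtain ⟨l, hl⟩ := hconv e
    obtain ⟨K, hK⟩ := Metric.cauchySeq_iff.mp hl.cauchySeq (ε / 4) (by positivity)
    refine ⟨K, fun m hm n hn => ?_⟩
    have h1 := hK m hm n hn
    have h2 := he m
    have h3 := he n
    rw [Real.dist_eq] at h1 ⊢
    rw [abs_lt] at h1 ⊢
    rw [abs_le] at h2 h3
    constructor <;> linarith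
  · intro hexh
    apply hact
    intro B hB ε hε
    obtain ⟨i, hi⟩ := hexh B hB (ε / 2) (by positivity)
    refine ⟨i, fun k => ?_⟩
    obtain ⟨g, hg1, hg2⟩ := tv_near (ν k) (thA_nonneg (Λ k) (hΛ k) (B i)) (ε / 4) (by positivity)
    have h1 := hi k g (fun N => by
      refine (hg1 N).trans ?_
      by_cases hN : N ∈ B i
      · rw [thA_mem _ _ hN]
        exact hΛ k N
      · rw [thA_notMem _ _ hN]
        exact zero_le_one) (fun N hN => by
      have h2 := hg1 N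
      rw [thA_notMem _ _ hN] at h2
      exact abs_nonpos_iff.mp h2)
    have h2 := (abs_le.mp h1).2
    show tv (ν k) (thA (Λ k) (hΛ k) (B i)) < ε
    linarith

end Pool.Agent.Results.MP_e1b320_an.InternalSequences
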