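import Mathlib
import Pool.Agent.LipPlane.Basic

set_option autoImplicit false
open Filter Topology
open scoped NNReal

namespace Pool.Agent.Results.MP_e1b320_an.JamesArrays

open Pool.Agent.LipPlane

/-- `E` is a Grothendieck space: weak* null sequences of functionals are weakly null. -/
def IsGrothendieck (E : Type) [NormedAddCommGroup E] [NormedSpace ℝ E] : Prop :=
  ∀ φ : ℕ → (E →L[ℝ] ℝ), (∀ x : E, Tendsto (fun n => φ n x) atTop (𝓝 0)) →
    ∀ ψ : (E →L[ℝ] ℝ) →L[ℝ] ℝ, Tendsto (fun n => ψ (φ n)) atTop (𝓝 0)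

/-- A James array of length `N` in the planar transportation cost space: finitely supported measures
`Ψ 0, …, Ψ (N-1)` of transportation norm at most `1` such that
* (separation) every convex combination of `Ψ 0, …, Ψ (m-1)` is at transportation distance at least
  `δ` from every convex combination of `Ψ m, …, Ψ (N-1)`;
* (bounded oscillation) for each `1`-Lipschitz `f` and `ε > 0` the sequence of integrals
  `∫ f dΨ 0, …, ∫ f dΨ (N-1)` has fewer than `M ε` consecutive `ε`-jumps along any subsequence. -/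
def JamesArray (δ : ℝ) (M : ℝ → ℕ) (N : ℕ) (Ψ : ℕ → (Plane →₀ ℝ)) : Prop :=
  (∀ k < N, UnitMeas (Ψ k)) ∧
  (∀ m ≤ N, ∀ a b : ℕ → ℝ, (∀ k, 0 ≤ a k) → (∀ k, 0 ≤ b k) →
    ∑ k ∈ Finset.range m, a k = 1 → ∑ k ∈ Finset.Ico m N, b k = 1 →
    ∃ f : Plane → ℝ, LipschitzWith 1 f ∧
      δ ≤ (∑ k ∈ Finset.range m, a k * pair (Ψ k) f) -
        ∑ k ∈ Finset.Ico m N, b k * pair (Ψ k) f) ∧
  (∀ f : Plane → ℝ, LipschitzWith 1 f → ∀ ε > 0, ∀ k : ℕ → ℕ, StrictMono k → k (M ε) < N →
    ∃ i < M ε, |pair (Ψ (k (i + 1))) f - pair (Ψ (k i)) f| < ε)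

/-- `μ 0, …, μ (n-1)` span a copy of `ℓ_∞^n` in the planar transportation cost space, with
distortion at most `C`:  `max |c i| ≤ ‖∑ c i μ i‖ ≤ C max |c i|`. -/
def LinftyCopy (C : ℝ) (n : ℕ) (μ : ℕ → (Plane →₀ ℝ)) : Prop :=
  (∀ c : ℕ → ℝ, (∀ i < n, |c i| ≤ 1) → ∀ f : Plane → ℝ, LipschitzWith 1 f →
    ∑ i ∈ Finset.range n, c i * pair (μ i) f ≤ C) ∧
  (∀ c : ℕ → ℝ, ∀ j < n, ∃ f : Plane → ℝ, LipschitzWith 1 f ∧
    |c j| ≤ ∑ i ∈ Finset.range n, c i * pair (μ i) f)

theorem no_james {E : Type} [NormedAddCommGroup E] [NormedSpace ℝ E]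
    {T : E →ₗ[ℝ] (Plane → ℝ)} (hT : IsLipModel E T) (hG : IsGrothendieck E)
    (δ : ℝ) (hδ : 0 < δ) (M : ℝ → ℕ) : ∃ N, ∀ Ψ, ¬ JamesArray δ M N Ψ := by
  classical
  by_contra hcon
  push Not at hcon
  choose Ψ hΨ using hcon
  -- radii
  have hRex : ∀ N : ℕ, ∃ R : ℝ, 0 < R ∧ ∀ k < N, ∀ x ∈ (Ψ N k).support, ‖x‖ ≤ R := by
    intro N
    refine ⟨1 + ∑ k ∈ Finset.range N, ∑ x ∈ (Ψ N k).support, ‖x‖, ?_, ?_⟩
    · have h1 : 0 ≤ ∑ k ∈ Finset.range N, ∑ x ∈ (Ψ N k).support, ‖x‖ :=
        Finset.sum_nonneg fun k _ => Finset.sum_nonneg fun x _ => norm_nonneg x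
      linarith
    · intro k hk x hx
      have h1 : ‖x‖ ≤ ∑ x ∈ (Ψ N k).support, ‖x‖ :=
        Finset.single_le_sum (f := fun x : Plane => ‖x‖) (fun x _ => norm_nonneg x) hx
      have h2 : ∑ x ∈ (Ψ N k).support, ‖x‖ ≤
          ∑ k ∈ Finset.range N, ∑ x ∈ (Ψ N k).support, ‖x‖ :=
        Finset.single_le_sum (f := fun k => ∑ x ∈ (Ψ N k).support, ‖x‖)
          (fun k _ => Finset.sum_nonneg fun x _ => norm_nonneg x) (Finset.mem_range.mpr hk)
      linarith
  choose R hR hRs using hRex
  obtain ⟨p, hp⟩ := exists_centres R hR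
  -- truncated arrays
  let Ψ' : ℕ → ℕ → (Plane →₀ ℝ) := fun N k => if k < N then Ψ N k else 0
  have hΨ' : ∀ N k, UnitMeas (Ψ' N k) := by
    intro N k
    by_cases hk : k < N
    · simp only [Ψ', if_pos hk]
      exact (hΨ N).1 k hk
    · simp only [Ψ', if_neg hk]
      exact unitMeas_zero
  let L : ℕ → ℕ → (E →L[ℝ] ℝ) := fun k N => func hT (Ψ' N k) (hΨ' N k) (p N)
  let U : Ultrafilter ℕ := hyperfilter ℕ
  have hUle : (U : Filter ℕ) ≤ atTop := by
    have h1 := hyperfilter_le_cofinite (α := ℕ)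
    rwa [Nat.cofinite_eq_atTop] at h1
  have hL : ∀ k, ∃ φ : E →L[ℝ] ℝ, ‖φ‖ ≤ 1 ∧ ∀ x, Tendsto (fun N => L k N x) U (𝓝 (φ x)) := by
    intro k
    exact exists_ulim U (L k) (fun N => norm_func_le hT _ _ _)
  choose φ hφn hφ using hL
  obtain ⟨φ', -, hφ'⟩ := exists_ulim U φ hφn
  -- pointwise convergence of φ k
  have hconv : ∀ e : E, Tendsto (fun k => φ k e) atTop (𝓝 (φ' e)) := by
    intro e
    have hcau : CauchySeq (fun k => φ k e) := by
      by_contra hnc
      rw [Metric.cauchySeq_iff'] at hnc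
      push Not at hnc
      obtain ⟨ε, hε, hnx⟩ := hnc
      choose nx hnx1 hnx2 using hnx
      let k : ℕ → ℕ := fun i => nx^[i] 0
      have hks : ∀ i, k (i + 1) = nx (k i) := by
        intro i
        simp only [k, Function.iterate_succ', Function.comp_apply]
      have hjump : ∀ i, ε ≤ |φ (k (i + 1)) e - φ (k i) e| := by
        intro i
        rw [hks, ← Real.dist_eq]
        exact hnx2 (k i)
      have hmono : StrictMono k := by
        apply strictMono_nat_of_lt_succ
        intro i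
        have h1 := hnx1 (k i)
        rw [← hks] at h1
        rcases h1.lt_or_eq with h2 | h2
        · exact h2
        · have h3 := hjump i
          rw [← h2, sub_self, abs_zero] at h3
          linarith
      have hc : 0 < ‖e‖ + 1 := by positivity
      have hε' : 0 < ε / (2 * (‖e‖ + 1)) := by positivity
      -- choose a good N
      have hev : ∀ i, ∀ᶠ N in (U : Filter ℕ), ε / 2 < |L (k (i + 1)) N e - L (k i) N e| := by
        intro i
        have h1 : Tendsto (fun N => |L (k (i + 1)) N e - L (k i) N e|) U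
            (𝓝 |φ (k (i + 1)) e - φ (k i) e|) := ((hφ _ e).sub (hφ _ e)).abs
        apply h1.eventually_const_lt
        have := hjump i
        linarith
      have hev2 : ∀ᶠ N in (U : Filter ℕ), ∀ i ∈ Finset.range (M (ε / (2 * (‖e‖ + 1)))),
          ε / 2 < |L (k (i + 1)) N e - L (k i) N e| := by
        rw [Filter.eventually_all_finset]
        intro i _
        exact hev i
      have hev3 : ∀ᶠ N in (U : Filter ℕ), k (M (ε / (2 * (‖e‖ + 1)))) < N :=
        hUle (eventually_gt_atTop _)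
      obtain ⟨N, hN1, hN2⟩ := (hev2.and hev3).exists
      have hf : LipschitzWith 1 (fun x => (‖e‖ + 1)⁻¹ * T e (x + p N)) := by
        apply LipschitzWith.of_dist_le_mul
        intro x y
        have h2 := (hT.lip e).dist_le_mul (x + p N) (y + p N)
        rw [dist_add_right, Real.dist_eq, coe_nnnorm] at h2
        rw [Real.dist_eq, ← mul_sub, abs_mul, abs_of_pos (inv_pos.mpr hc), NNReal.coe_one, one_mul,
          inv_mul_le_iff₀ hc]
        refine h2.trans ?_
        exact mul_le_mul_of_nonneg_right (by linarith) dist_nonneg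
      obtain ⟨i, hi, hlt⟩ := (hΨ N).2.2 _ hf _ hε' k hmono hN2
      have hki : ∀ j, j ≤ M (ε / (2 * (‖e‖ + 1))) → Ψ' N (k j) = Ψ N (k j) := by
        intro j hj
        have h1 : k j < N := lt_of_le_of_lt (hmono.monotone hj) hN2
        simp only [Ψ', if_pos h1]
      have h1 := hN1 i (Finset.mem_range.mpr hi)
      have h2 : L (k (i + 1)) N e = pair (Ψ N (k (i + 1))) (fun x => T e (x + p N)) := by
        simp only [L, func_apply]
        rw [hki _ (by omega)]
      have h3 : L (k i) N e = pair (Ψ N (k i)) (fun x => T e (x + p N)) := by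
        simp only [L, func_apply]
        rw [hki _ (by omega)]
      rw [h2, h3] at h1
      rw [pair_mul, pair_mul, ← mul_sub, abs_mul, abs_of_pos (inv_pos.mpr hc),
        inv_mul_lt_iff₀ hc] at hlt
      have h4 : (‖e‖ + 1) * (ε / (2 * (‖e‖ + 1))) = ε / 2 := by
        field_simp
      rw [h4] at hlt
      linarith
    obtain ⟨l, hl⟩ := cauchySeq_tendsto_of_complete hcau
    have h1 : l = φ' e := tendsto_nhds_unique (hl.mono_left hUle) (hφ' e)
    rw [← h1]
    exact hl
  -- weak convergence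
  have hweak : ∀ ψ : (E →L[ℝ] ℝ) →L[ℝ] ℝ, Tendsto (fun n => ψ (φ n)) atTop (𝓝 (ψ φ')) := by
    intro ψ
    have h1 := hG (fun n => φ n - φ') (by
      intro x
      have h2 := (hconv x).sub_const (φ' x)
      rw [sub_self] at h2
      exact h2) ψ
    have h3 := h1.add_const (ψ φ')
    rw [zero_add] at h3
    have h4 : (fun n => ψ (φ n - φ') + ψ φ') = fun n => ψ (φ n) := by
      funext n
      rw [map_sub, sub_add_cancel]
    rw [h4] at h3
    exact h3
  obtain ⟨L0, a, -, ha0, ha1, ha2⟩ := mazur φ φ' hweak 0 (δ / 2) (by positivity)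
  obtain ⟨L1, b, hL01, hb0, hb1, hb2⟩ := mazur φ φ' hweak L0 (δ / 2) (by positivity)
  have hdist : ‖(∑ k ∈ Finset.Ico 0 L0, a k • φ k) - ∑ k ∈ Finset.Ico L0 L1, b k • φ k‖ < δ := by
    have h1 : (∑ k ∈ Finset.Ico 0 L0, a k • φ k) - ∑ k ∈ Finset.Ico L0 L1, b k • φ k =
        ((∑ k ∈ Finset.Ico 0 L0, a k • φ k) - φ') -
          ((∑ k ∈ Finset.Ico L0 L1, b k • φ k) - φ') := by abel
    rw [h1]
    refine lt_of_le_of_lt (norm_sub_le _ _) ?_
    linarith
  -- separating functions
  have hfex : ∀ N : ℕ, ∃ f : Plane → ℝ, LipschitzWith 1 f ∧ (L1 ≤ N →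
      δ ≤ (∑ k ∈ Finset.range L0, a k * pair (Ψ N k) f) -
        ∑ k ∈ Finset.Ico L0 L1, b k * pair (Ψ N k) f) := by
    intro N
    by_cases hN : L1 ≤ N
    · have hbN : ∑ k ∈ Finset.Ico L0 N, (if k < L1 then b k else 0) = 1 := by
        rw [← hb1]
        symm
        have hsub : Finset.Ico L0 L1 ⊆ Finset.Ico L0 N := Finset.Ico_subset_Ico le_rfl hN
        rw [← Finset.sum_subset hsub (f := fun k => if k < L1 then b k else 0)]
        · apply Finset.sum_congr rfl
          intro k hk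
          rw [Finset.mem_Ico] at hk
          rw [if_pos hk.2]
        · intro k hk hk2
          rw [Finset.mem_Ico] at hk hk2
          rw [if_neg (by omega)]
      have haN : ∑ k ∈ Finset.range L0, a k = 1 := by
        rw [Finset.range_eq_Ico]
        exact ha1
      obtain ⟨f, hf, hδf⟩ := (hΨ N).2.1 L0 (hL01.trans hN) a (fun k => if k < L1 then b k else 0)
        ha0 (by
          intro k
          split_ifs
          · exact hb0 k
          · exact le_rfl) haN hbN
      refine ⟨f, hf, fun _ => ?_⟩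
      have h1 : ∑ k ∈ Finset.Ico L0 N, (if k < L1 then b k else 0) * pair (Ψ N k) f =
          ∑ k ∈ Finset.Ico L0 L1, b k * pair (Ψ N k) f := by
        symm
        have hsub : Finset.Ico L0 L1 ⊆ Finset.Ico L0 N := Finset.Ico_subset_Ico le_rfl hN
        rw [← Finset.sum_subset hsub (f := fun k => (if k < L1 then b k else 0) * pair (Ψ N k) f)]
        · apply Finset.sum_congr rfl
          intro k hk
          rw [Finset.mem_Ico] at hk
          rw [if_pos hk.2]
        · intro k hk hk2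
          rw [Finset.mem_Ico] at hk hk2
          rw [if_neg (by omega), zero_mul]
      rw [h1] at hδf
      exact hδf
    · exact ⟨fun _ => 0, (LipschitzWith.const (0 : ℝ)).weaken zero_le_one,
        fun h => absurd h hN⟩
  choose f hf hfδ using hfex
  obtain ⟨g, hg1, hg0, c, hgc⟩ := glue p R hR hp f hf
  obtain ⟨e, he⟩ := hT.surj g hg0 ⟨1, hg1⟩
  have hen : ‖e‖ ≤ 1 := by
    have h1 := hT.norm_le e 1 (by rw [he]; exact hg1)
    exact_mod_cast h1
  have hLval : ∀ k N, k < N → L k N e = pair (Ψ N k) (f N) := by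
    intro k N hk
    simp only [L, func_apply, Ψ', if_pos hk, he]
    have h1 : pair (Ψ N k) (fun x => g (x + p N)) = pair (Ψ N k) (fun x => f N x + c N) := by
      apply pair_congr
      intro x hx
      exact hgc N x (hRs N k hk x hx)
    rw [h1, pair_add, pair_const ((hΨ N).1 k hk), add_zero]
  have hlim : Tendsto (fun N => (∑ k ∈ Finset.Ico 0 L0, a k * L k N e) -
      ∑ k ∈ Finset.Ico L0 L1, b k * L k N e) U
      (𝓝 ((∑ k ∈ Finset.Ico 0 L0, a k * φ k e) - ∑ k ∈ Finset.Ico L0 L1, b k * φ k e)) := by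
    apply Tendsto.sub
    · apply tendsto_finsetSum
      intro k _
      exact (hφ k e).const_mul _
    · apply tendsto_finsetSum
      intro k _
      exact (hφ k e).const_mul _
  have hge : δ ≤ (∑ k ∈ Finset.Ico 0 L0, a k * φ k e) -
      ∑ k ∈ Finset.Ico L0 L1, b k * φ k e := by
    apply ge_of_tendsto hlim
    have h1 : ∀ᶠ N in (U : Filter ℕ), L1 ≤ N := hUle (eventually_ge_atTop _)
    filter_upwards [h1] with N hN
    have h2 := hfδ N hN
    rw [Finset.range_eq_Ico] at h2
    have h3 : ∑ k ∈ Finset.Ico 0 L0, a k * L k N e =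
        ∑ k ∈ Finset.Ico 0 L0, a k * pair (Ψ N k) (f N) := by
      apply Finset.sum_congr rfl
      intro k hk
      rw [Finset.mem_Ico] at hk
      rw [hLval k N (by omega)]
    have h4 : ∑ k ∈ Finset.Ico L0 L1, b k * L k N e =
        ∑ k ∈ Finset.Ico L0 L1, b k * pair (Ψ N k) (f N) := by
      apply Finset.sum_congr rfl
      intro k hk
      rw [Finset.mem_Ico] at hk
      rw [hLval k N (by omega)]
    rw [h3, h4]
    exact h2
  have happ : ((∑ k ∈ Finset.Ico 0 L0, a k • φ k) - ∑ k ∈ Finset.Ico L0 L1, b k • φ k) e =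
      (∑ k ∈ Finset.Ico 0 L0, a k * φ k e) - ∑ k ∈ Finset.Ico L0 L1, b k * φ k e := by
    simp
  have hfin := ((∑ k ∈ Finset.Ico 0 L0, a k • φ k) -
    ∑ k ∈ Finset.Ico L0 L1, b k • φ k).le_opNorm e
  rw [happ, Real.norm_eq_abs] at hfin
  have h5 := le_abs_self ((∑ k ∈ Finset.Ico 0 L0, a k * φ k e) -
      ∑ k ∈ Finset.Ico L0 L1, b k * φ k e)
  have h6 : ‖(∑ k ∈ Finset.Ico 0 L0, a k • φ k) - ∑ k ∈ Finset.Ico L0 L1, b k • φ k‖ * ‖e‖ ≤
      ‖(∑ k ∈ Finset.Ico 0 L0, a k • φ k) - ∑ k ∈ Finset.Ico L0 L1, b k • φ k‖ * 1 :=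
    mul_le_mul_of_nonneg_left hen (norm_nonneg _)
  linarith

/-- The increments of a copy of `ℓ_∞^n` form a James array with oscillation function `2/ε`. -/
theorem no_linfty {E : Type} [NormedAddCommGroup E] [NormedSpace ℝ E]
    {T : E →ₗ[ℝ] (Plane → ℝ)} (hT : IsLipModel E T) (hG : IsGrothendieck E)
    (C : ℝ) : ∃ n, ∀ μ, ¬ LinftyCopy C n μ := by
  classical
  by_contra hcon
  push Not at hcon
  choose μ hμ using hcon
  have hC : 1 ≤ C := by
    obtain ⟨f, hf, hf1⟩ := (hμ 1).2 (fun _ => 1) 0 (by norm_num)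
    have h1 := (hμ 1).1 (fun _ => 1) (by intro i _; simp) f hf
    simp only [abs_one] at hf1
    linarith
  have hC0 : 0 < C := by linarith
  obtain ⟨N, hN⟩ := no_james hT hG (1 / C) (by positivity) (fun ε => ⌈1 / ε⌉₊ + 1)
  let Ψ : ℕ → (Plane →₀ ℝ) := fun k => (1 / C) • ∑ i ∈ Finset.range (k + 1), μ N i
  -- pairing is additive in the measure
  have hpair0 : ∀ f : Plane → ℝ, ∀ m m' : Plane →₀ ℝ, pair (m + m') f = pair m f + pair m' f := by
    intro f m m'
    unfold pair
    rw [Finsupp.sum_add_index']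
    · intro x; rw [zero_mul]
    · intro x a b; rw [add_mul]
  have hpairc : ∀ f : Plane → ℝ, ∀ (r : ℝ) (m : Plane →₀ ℝ), pair (r • m) f = r * pair m f := by
    intro f r m
    unfold pair
    rw [Finsupp.sum_smul_index (fun x => by rw [zero_mul]), Finsupp.sum, Finsupp.sum,
      Finset.mul_sum]
    exact Finset.sum_congr rfl fun x _ => by ring
  have hpairs : ∀ f : Plane → ℝ, ∀ k : ℕ, pair (∑ i ∈ Finset.range k, μ N i) f =
      ∑ i ∈ Finset.range k, pair (μ N i) f := by
    intro f k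
    induction k with
    | zero => simp [pair]
    | succ k ih => rw [Finset.sum_range_succ, hpair0, ih, Finset.sum_range_succ]
  have hΨp : ∀ f : Plane → ℝ, ∀ k : ℕ, pair (Ψ k) f =
      (1 / C) * ∑ i ∈ Finset.range (k + 1), pair (μ N i) f := by
    intro f k
    simp only [Ψ]
    rw [hpairc, hpairs]
  -- absolute summability
  have habs : ∀ f : Plane → ℝ, LipschitzWith 1 f →
      ∑ i ∈ Finset.range N, |pair (μ N i) f| ≤ C := by
    intro f hf
    have h1 := (hμ N).1 (fun i => SignType.sign (pair (μ N i) f)) (by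
      intro i _
      rcases lt_trichotomy (pair (μ N i) f) 0 with h | h | h
      · simp [sign_neg h]
      · simp [h]
      · simp [sign_pos h]) f hf
    refine le_trans (le_of_eq ?_) h1
    apply Finset.sum_congr rfl
    intro i _
    rw [sign_mul_self]
  apply hN Ψ
  refine ⟨?_, ?_, ?_⟩
  · intro k hk f hf
    rw [hΨp, abs_mul, abs_of_pos (by positivity), one_div, inv_mul_le_iff₀ hC0, mul_one]
    refine (Finset.abs_sum_le_sum_abs _ _).trans ((Finset.sum_le_sum_of_subset_of_nonneg
      ?_ ?_).trans (habs f hf))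
    · intro i hi
      rw [Finset.mem_range] at hi ⊢
      omega
    · intro i _ _
      exact abs_nonneg _
  · intro m hmN a b ha hb ha1 hb1
    have hmN' : m < N := by
      rcases hmN.lt_or_eq with h | h
      · exact h
      · rw [h, Finset.Ico_self, Finset.sum_empty] at hb1
        norm_num at hb1
    -- coefficient of μ i
    let c : ℕ → ℝ := fun i => (∑ k ∈ Finset.range m, if i < k + 1 then a k else 0) -
      ∑ k ∈ Finset.Ico m N, if i < k + 1 then b k else 0
    have hcm : c m = -1 := by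
      have h1 : (∑ k ∈ Finset.range m, if m < k + 1 then a k else 0) = 0 := by
        apply Finset.sum_eq_zero
        intro k hk
        rw [Finset.mem_range] at hk
        rw [if_neg (by omega)]
      have h2 : (∑ k ∈ Finset.Ico m N, if m < k + 1 then b k else 0) = 1 := by
        rw [← hb1]
        apply Finset.sum_congr rfl
        intro k hk
        rw [Finset.mem_Ico] at hk
        rw [if_pos (by omega)]
      simp only [c]
      rw [h1, h2]
      norm_num
    obtain ⟨f, hf, hf1⟩ := (hμ N).2 c m hmN'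
    refine ⟨f, hf, ?_⟩
    rw [hcm, abs_neg, abs_one] at hf1
    have hexp : ∀ k, k < N → ∑ i ∈ Finset.range (k + 1), pair (μ N i) f =
        ∑ i ∈ Finset.range N, if i < k + 1 then pair (μ N i) f else 0 := by
      intro k hk
      rw [← Finset.sum_filter]
      apply Finset.sum_congr _ (fun _ _ => rfl)
      ext i
      rw [Finset.mem_range, Finset.mem_filter, Finset.mem_range]
      omega
    have hA : ∑ k ∈ Finset.range m, a k * pair (Ψ k) f =
        (1 / C) * ∑ i ∈ Finset.range N,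
          (∑ k ∈ Finset.range m, if i < k + 1 then a k else 0) * pair (μ N i) f := by
      have h1 : ∀ k ∈ Finset.range m, a k * pair (Ψ k) f =
          (1 / C) * ∑ i ∈ Finset.range N, (if i < k + 1 then a k else 0) * pair (μ N i) f := by
        intro k hk
        rw [Finset.mem_range] at hk
        rw [hΨp, hexp k (by omega), ← mul_assoc, mul_comm (a k), mul_assoc, Finset.mul_sum]
        congr 1
        apply Finset.sum_congr rfl
        intro i _
        split_ifs <;> ring
      rw [Finset.sum_congr rfl h1, ← Finset.mul_sum, Finset.sum_comm]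
      congr 1
      apply Finset.sum_congr rfl
      intro i _
      rw [Finset.sum_mul]
    have hB : ∑ k ∈ Finset.Ico m N, b k * pair (Ψ k) f =
        (1 / C) * ∑ i ∈ Finset.range N,
          (∑ k ∈ Finset.Ico m N, if i < k + 1 then b k else 0) * pair (μ N i) f := by
      have h1 : ∀ k ∈ Finset.Ico m N, b k * pair (Ψ k) f =
          (1 / C) * ∑ i ∈ Finset.range N, (if i < k + 1 then b k else 0) * pair (μ N i) f := by
        intro k hk
        rw [Finset.mem_Ico] at hk
        rw [hΨp, hexp k (by omega), ← mul_assoc, mul_comm (b k), mul_assoc, Finset.mul_sum]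
        congr 1
        apply Finset.sum_congr rfl
        intro i _
        split_ifs <;> ring
      rw [Finset.sum_congr rfl h1, ← Finset.mul_sum, Finset.sum_comm]
      congr 1
      apply Finset.sum_congr rfl
      intro i _
      rw [Finset.sum_mul]
    have hAB : (∑ k ∈ Finset.range m, a k * pair (Ψ k) f) -
        ∑ k ∈ Finset.Ico m N, b k * pair (Ψ k) f =
        (1 / C) * ∑ i ∈ Finset.range N, c i * pair (μ N i) f := by
      rw [hA, hB, ← mul_sub, ← Finset.sum_sub_distrib]
      congr 1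
      apply Finset.sum_congr rfl
      intro i _
      simp only [c]
      ring
    rw [hAB]
    have h2 : (1 / C) * 1 ≤ (1 / C) * ∑ i ∈ Finset.range N, c i * pair (μ N i) f :=
      mul_le_mul_of_nonneg_left hf1 (by positivity)
    linarith
  · intro f hf ε hε k hk hkN
    by_contra hno
    push Not at hno
    have hmon := hk.monotone
    have hkN' : k (⌈1 / ε⌉₊ + 1) < N := hkN
    -- telescoping over disjoint blocks
    have hblock : ∀ j, pair (Ψ (k (j + 1))) f - pair (Ψ (k j)) f =
        (1 / C) * ∑ i ∈ Finset.Ico (k j + 1) (k (j + 1) + 1), pair (μ N i) f := by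
      intro j
      have h1 : k j + 1 ≤ k (j + 1) + 1 := by
        have := hmon (show j ≤ j + 1 by omega)
        omega
      rw [hΨp, hΨp, ← mul_sub, ← Finset.sum_Ico_eq_sub _ h1]
    have htel : ∀ J, J ≤ ⌈1 / ε⌉₊ + 1 → (∑ j ∈ Finset.range J,
        |pair (Ψ (k (j + 1))) f - pair (Ψ (k j)) f|) ≤
        (1 / C) * ∑ i ∈ Finset.Ico (k 0 + 1) (k J + 1), |pair (μ N i) f| := by
      intro J hJ
      induction J with
      | zero => simp
      | succ J ih =>
        rw [Finset.sum_range_succ]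
        have h1 : k 0 + 1 ≤ k J + 1 := by
          have := hmon (Nat.zero_le J)
          omega
        have h2 : k J + 1 ≤ k (J + 1) + 1 := by
          have := hmon (show J ≤ J + 1 by omega)
          omega
        rw [← Finset.sum_Ico_consecutive _ h1 h2, mul_add]
        apply add_le_add (ih (by omega))
        rw [hblock, abs_mul, abs_of_pos (by positivity : (0 : ℝ) < 1 / C)]
        exact mul_le_mul_of_nonneg_left (Finset.abs_sum_le_sum_abs _ _) (by positivity)
    have h1 := htel (⌈1 / ε⌉₊ + 1) le_rfl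
    have h2 : ∑ i ∈ Finset.Ico (k 0 + 1) (k (⌈1 / ε⌉₊ + 1) + 1), |pair (μ N i) f| ≤ C := by
      refine le_trans (Finset.sum_le_sum_of_subset_of_nonneg ?_ ?_) (habs f hf)
      · intro i hi
        rw [Finset.mem_Ico] at hi
        rw [Finset.mem_range]
        omega
      · intro i _ _
        exact abs_nonneg _
    have h3 : (∑ j ∈ Finset.range (⌈1 / ε⌉₊ + 1), ε) ≤ ∑ j ∈ Finset.range (⌈1 / ε⌉₊ + 1),
        |pair (Ψ (k (j + 1))) f - pair (Ψ (k j)) f| := by
      apply Finset.sum_le_sum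
      intro j hj
      exact hno j (Finset.mem_range.mp hj)
    rw [Finset.sum_const, Finset.card_range, nsmul_eq_mul] at h3
    have h4 : (1 / C) * ∑ i ∈ Finset.Ico (k 0 + 1) (k (⌈1 / ε⌉₊ + 1) + 1), |pair (μ N i) f| ≤
        (1 / C) * C := mul_le_mul_of_nonneg_left h2 (by positivity)
    have h5 : (1 / C) * C = 1 := by field_simp
    have h6 : 1 / ε ≤ (⌈1 / ε⌉₊ : ℝ) := Nat.le_ceil _
    have h7 : 1 ≤ (⌈1 / ε⌉₊ : ℝ) * ε := by
      rw [div_le_iff₀ hε] at h6
      exact h6
    push_cast at h3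
    nlinarith

theorem result :
    ∀ (δ : ℝ) (M : ℝ → ℕ), 0 < δ → (∀ N, ∃ Ψ : ℕ → (Plane →₀ ℝ), JamesArray δ M N Ψ) →
      ∀ (E : Type) [NormedAddCommGroup E] [NormedSpace ℝ E] (T : E →ₗ[ℝ] (Plane → ℝ)),
        IsLipModel E T →
          ∃ φ : ℕ → (E →L[ℝ] ℝ), (∀ x : E, Tendsto (fun n => φ n x) atTop (𝓝 0)) ∧
            ∃ ψ : (E →L[ℝ] ℝ) →L[ℝ] ℝ, ¬ Tendsto (fun n => ψ (φ n)) atTop (𝓝 0) := by
  intro δ M hδ hex E _ _ T hT
  by_contra hcon
  push Not at hcon
  have hG : IsGrothendieck E := fun φ hφ ψ => hcon φ hφ ψ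
  obtain ⟨N, hN⟩ := no_james hT hG δ hδ M
  obtain ⟨Ψ, hΨ⟩ := hex N
  exact hN Ψ hΨ

end Pool.Agent.Results.MP_e1b320_an.JamesArrays
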