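import Mathlib

set_option autoImplicit false
open MeasureTheory
open scoped NNReal ENNReal

namespace Pool.Agent.Results.MP_e1b320_an.WeightedTruncation

/-- The Euclidean plane. -/
abbrev Plane : Type := EuclideanSpace ℝ (Fin 2)

/-- The de Leeuw transform: difference quotients of `u` (zero on the diagonal). -/
noncomputable def dq (u : Plane → ℝ) (ω : Plane × Plane) : ℝ := (u ω.1 - u ω.2) / dist ω.1 ω.2

/-- Lipschitz truncation in `L_p` of the weight `W` (a measure on pairs of points) with constant `C`: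
every Lipschitz `u` has a `C`-Lipschitz approximant `u'` whose `L_p(W)` distance from `u` (measured on
difference quotients) is at most `C` times that of the optimal pointwise truncation. -/
def Truncates (p : ℝ) (C : ℝ≥0) (W : Measure (Plane × Plane)) : Prop :=
  ∀ u : Plane → ℝ, (∃ K : ℝ≥0, LipschitzWith K u) → ∃ u' : Plane → ℝ, LipschitzWith C u' ∧
    ∫ ω, |dq u ω - dq u' ω| ^ p ∂W ≤ (C : ℝ) ^ p * ∫ ω, (max (|dq u ω| - 1) 0) ^ p ∂W

/-! ### clamps -/

noncomputable def cl (z h : ℝ) : ℝ := max 0 (min z h)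

theorem cl_add (z h : ℝ) (hh : 0 ≤ h) : cl z (3 * h) = cl z h + cl (z - h) h + cl (z - 2 * h) h := by
  unfold cl
  rcases le_total z 0 with h1 | h1
  · rw [min_eq_left (by linarith), max_eq_left h1, min_eq_left (by linarith), max_eq_left h1,
      min_eq_left (by linarith), max_eq_left (by linarith), min_eq_left (by linarith),
      max_eq_left (by linarith)]
    ring
  rcases le_total z h with h2 | h2
  · rw [min_eq_left (by linarith), max_eq_right h1, min_eq_left h2, max_eq_right h1,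
      min_eq_left (by linarith), max_eq_left (by linarith), min_eq_left (by linarith),
      max_eq_left (by linarith)]
    ring
  rcases le_total z (2 * h) with h3 | h3
  · rw [min_eq_left (by linarith), max_eq_right h1, min_eq_right h2, max_eq_right hh,
      min_eq_left (by linarith), max_eq_right (by linarith), min_eq_left (by linarith),
      max_eq_left (by linarith)]
    ring
  rcases le_total z (3 * h) with h4 | h4
  · rw [min_eq_left h4, max_eq_right h1, min_eq_right h2, max_eq_right hh,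
      min_eq_right (by linarith), max_eq_right hh, min_eq_left (by linarith),
      max_eq_right (by linarith)]
    ring
  · rw [min_eq_right h4, max_eq_right (by linarith), min_eq_right h2, max_eq_right hh,
      min_eq_right (by linarith), max_eq_right hh, min_eq_right (by linarith), max_eq_right hh]
    ring

theorem cl_mono (h : ℝ) {z z' : ℝ} (hz : z ≤ z') : cl z h ≤ cl z' h :=
  max_le_max le_rfl (min_le_min hz le_rfl)

theorem cl_nonneg (z h : ℝ) : 0 ≤ cl z h := le_max_left _ _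

theorem cl_le (z h : ℝ) (hh : 0 ≤ h) : cl z h ≤ h := max_le hh (min_le_right _ _)

theorem cl_lip (h : ℝ) {z z' : ℝ} (hz : z ≤ z') : cl z' h - cl z h ≤ z' - z := by
  unfold cl
  rcases le_total z' h with h1 | h1 <;> rcases le_total z h with h2 | h2 <;>
    rcases le_total 0 z with h3 | h3 <;> rcases le_total 0 z' with h4 | h4 <;>
    rcases le_total 0 h with h5 | h5 <;>
    simp only [min_eq_left, min_eq_right, max_eq_left, max_eq_right, h1, h2, h3, h4, h5] <;>
    linarith

theorem cl_of_le {z h : ℝ} (hz : z ≤ 0) : cl z h = 0 :=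
  max_eq_left ((min_le_left _ _).trans hz)

theorem cl_of_ge {z h : ℝ} (hh : 0 ≤ h) (hz : h ≤ z) : cl z h = h := by
  unfold cl
  rw [min_eq_right hz, max_eq_right hh]

/-! ### Cantor points -/

/-- ternary digit (0 or 2) -/
noncomputable def dig {n : ℕ} (a : Fin n → Bool) (i : ℕ) : ℝ :=
  if h : i < n then (if a ⟨i, h⟩ then 2 else 0) else 0

/-- left end point of the level `j` interval -/
noncomputable def lft {n : ℕ} (j : ℕ) (a : Fin n → Bool) : ℝ :=
  ∑ i ∈ Finset.range j, dig a i * (1 / 3 : ℝ) ^ (i + 1)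

theorem dig_nonneg {n : ℕ} (a : Fin n → Bool) (i : ℕ) : 0 ≤ dig a i := by
  unfold dig
  split_ifs <;> norm_num

theorem dig_le {n : ℕ} (a : Fin n → Bool) (i : ℕ) : dig a i ≤ 2 := by
  unfold dig
  split_ifs <;> norm_num

theorem lft_succ {n : ℕ} (j : ℕ) (a : Fin n → Bool) :
    lft (j + 1) a = lft j a + dig a j * (1 / 3 : ℝ) ^ (j + 1) := by
  unfold lft
  rw [Finset.sum_range_succ]

theorem lft_mono {n : ℕ} (a : Fin n → Bool) {j k : ℕ} (h : j ≤ k) : lft j a ≤ lft k a := by
  induction k, h using Nat.le_induction with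
  | base => exact le_rfl
  | succ k _ ih =>
    rw [lft_succ]
    have := dig_nonneg a k
    have : 0 ≤ dig a k * (1 / 3 : ℝ) ^ (k + 1) := by positivity
    linarith

theorem lft_le {n : ℕ} (a : Fin n → Bool) {j k : ℕ} (h : j ≤ k) :
    lft k a + (1 / 3 : ℝ) ^ k ≤ lft j a + (1 / 3 : ℝ) ^ j := by
  induction k, h using Nat.le_induction with
  | base => exact le_rfl
  | succ k _ ih =>
    rw [lft_succ]
    have h1 := dig_le a k
    have h2 : dig a k * (1 / 3 : ℝ) ^ (k + 1) ≤ 2 * (1 / 3 : ℝ) ^ (k + 1) :=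
      mul_le_mul_of_nonneg_right h1 (by positivity)
    have h3 : (1 / 3 : ℝ) ^ k = 3 * (1 / 3 : ℝ) ^ (k + 1) := by
      rw [pow_succ]
      ring
    linarith

/-- flip the `k`-th digit -/
def flip {n : ℕ} (k : Fin n) (a : Fin n → Bool) : Fin n → Bool := Function.update a k (!(a k))

theorem flip_flip {n : ℕ} (k : Fin n) (a : Fin n → Bool) : flip k (flip k a) = a := by
  unfold flip
  funext i
  by_cases h : i = k
  · subst h
    simp
  · simp [Function.update_of_ne h]

theorem dig_flip_ne {n : ℕ} (k : Fin n) (a : Fin n → Bool) (i : ℕ) (h : i ≠ k) :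
    dig (flip k a) i = dig a i := by
  unfold dig flip
  split_ifs with h1 h2 h3 h3 <;> first | rfl | skip
  · rw [Function.update_of_ne (by intro hh; exact h (by rw [← hh]))] at h2
    exact absurd h2 h3
  · rw [Function.update_of_ne (by intro hh; exact h (by rw [← hh]))] at h2
    exact absurd h3 h2

theorem dig_self {n : ℕ} (k : Fin n) (a : Fin n → Bool) : dig a k = if a k then 2 else 0 := by
  unfold dig
  rw [dif_pos k.isLt]

theorem dig_flip_self {n : ℕ} (k : Fin n) (a : Fin n → Bool) :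
    dig (flip k a) k = if a k then 0 else 2 := by
  rw [dig_self]
  unfold flip
  rw [Function.update_self]
  cases a k <;> simp

theorem lft_flip_le {n : ℕ} (k : Fin n) (a : Fin n → Bool) {j : ℕ} (h : j ≤ k) :
    lft j (flip k a) = lft j a := by
  unfold lft
  apply Finset.sum_congr rfl
  intro i hi
  rw [Finset.mem_range] at hi
  rw [dig_flip_ne k a i (by omega)]

theorem lft_flip_gt {n : ℕ} (k : Fin n) (a : Fin n → Bool) {j : ℕ} (h : (k : ℕ) < j) :
    lft j (flip k a) - lft j a = (dig (flip k a) k - dig a k) * (1 / 3 : ℝ) ^ ((k : ℕ) + 1) := by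
  unfold lft
  rw [← Finset.sum_sub_distrib, Finset.sum_eq_single (k : ℕ)]
  · ring
  · intro i _ hi
    rw [dig_flip_ne k a i hi]
    ring
  · intro hk
    exact absurd (Finset.mem_range.mpr h) hk

theorem sum_flip {n : ℕ} (k : Fin n) (G : (Fin n → Bool) → ℝ) :
    ∑ a, G (flip k a) = ∑ a, G a := by
  have hinv : Function.Involutive (flip k) := flip_flip k
  exact Equiv.sum_comp hinv.toPerm G

/-- total clamp function at level `k` -/
noncomputable def tot (n k : ℕ) (x : ℝ) : ℝ :=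
  ∑ a : Fin n → Bool, (2 : ℝ) ^ k / 2 ^ n * cl (x - lft k a) ((1 / 3 : ℝ) ^ k)

theorem tot_sub {n : ℕ} (k : Fin n) (x : ℝ) :
    tot n k x - tot n (k + 1) x = ∑ a : Fin n → Bool, (2 : ℝ) ^ (k : ℕ) / 2 ^ n *
      cl (x - (lft k a + (1 / 3 : ℝ) ^ ((k : ℕ) + 1))) ((1 / 3 : ℝ) ^ ((k : ℕ) + 1)) := by
  set h : ℝ := (1 / 3 : ℝ) ^ ((k : ℕ) + 1) with hh
  have hpos : 0 ≤ h := by positivity
  have h3 : (1 / 3 : ℝ) ^ (k : ℕ) = 3 * h := by
    rw [hh, pow_succ]
    ring
  have hA : tot n (k + 1) x = ∑ a : Fin n → Bool, (2 : ℝ) ^ (k : ℕ) / 2 ^ n *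
      (cl (x - lft k a) h + cl (x - lft k a - 2 * h) h) := by
    have h1 : ∀ a : Fin n → Bool, cl (x - lft (k + 1) a) h + cl (x - lft (k + 1) (flip k a)) h =
        cl (x - lft k a) h + cl (x - lft k a - 2 * h) h := by
      intro a
      rw [lft_succ, lft_succ, lft_flip_le k a le_rfl, dig_flip_self, dig_self, ← hh]
      cases a k
      · simp only [Bool.false_eq_true, if_false]
        rw [zero_mul, add_zero, sub_sub]
      · simp only [if_true]
        rw [zero_mul, add_zero, sub_sub, add_comm]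
    have h2 : 2 * tot n (k + 1) x = ∑ a : Fin n → Bool, (2 : ℝ) ^ ((k : ℕ) + 1) / 2 ^ n *
        (cl (x - lft (k + 1) a) h + cl (x - lft (k + 1) (flip k a)) h) := by
      have h4 : ∑ a : Fin n → Bool, (2 : ℝ) ^ ((k : ℕ) + 1) / 2 ^ n *
          cl (x - lft (k + 1) (flip k a)) h = tot n (k + 1) x := by
        have := sum_flip k (fun a => (2 : ℝ) ^ ((k : ℕ) + 1) / 2 ^ n * cl (x - lft (k + 1) a) h)
        rw [this]
        rfl
      simp only [mul_add]
      rw [Finset.sum_add_distrib, h4, two_mul]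
      rfl
    have h5 : tot n (k + 1) x = (1 / 2) * (2 * tot n (k + 1) x) := by ring
    rw [h5, h2, Finset.mul_sum]
    apply Finset.sum_congr rfl
    intro a _
    rw [h1, pow_succ]
    ring
  rw [hA]
  unfold tot
  rw [← Finset.sum_sub_distrib]
  apply Finset.sum_congr rfl
  intro a _
  rw [h3, cl_add _ h hpos, ← sub_sub]
  ring

theorem tot_mono (n k : ℕ) {x y : ℝ} (h : x ≤ y) : tot n k x ≤ tot n k y := by
  unfold tot
  apply Finset.sum_le_sum
  intro a _
  apply mul_le_mul_of_nonneg_left _ (by positivity)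
  exact cl_mono _ (by linarith)

theorem tot_zero (n : ℕ) (x : ℝ) : tot n 0 x = cl x 1 := by
  unfold tot lft
  simp only [Finset.range_zero, Finset.sum_empty, sub_zero, pow_zero, Finset.sum_const,
    Finset.card_univ, Fintype.card_fun, Fintype.card_bool, Fintype.card_fin, nsmul_eq_mul]
  push_cast
  field_simp

/-- the gap function -/
noncomputable def gapF {n : ℕ} (k : ℕ) (a : Fin n → Bool) (x : ℝ) : ℝ :=
  cl (x - (lft k a + (1 / 3 : ℝ) ^ (k + 1))) ((1 / 3 : ℝ) ^ (k + 1))

theorem gap_sum_le (n : ℕ) {x y : ℝ} (h : x ≤ y) :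
    ∑ k ∈ Finset.range n, ∑ a : Fin n → Bool, (2 : ℝ) ^ k / 2 ^ n * (gapF k a y - gapF k a x) ≤
      y - x := by
  have h1 : ∀ k ∈ Finset.range n, ∑ a : Fin n → Bool, (2 : ℝ) ^ k / 2 ^ n *
      (gapF k a y - gapF k a x) = (tot n k y - tot n k x) - (tot n (k + 1) y - tot n (k + 1) x) := by
    intro k hk
    rw [Finset.mem_range] at hk
    have h2 := tot_sub (⟨k, hk⟩ : Fin n) y
    have h3 := tot_sub (⟨k, hk⟩ : Fin n) x
    simp only at h2 h3
    have h4 : tot n k y - tot n k x - (tot n (k + 1) y - tot n (k + 1) x) =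
        (tot n k y - tot n (k + 1) y) - (tot n k x - tot n (k + 1) x) := by ring
    rw [h4, h2, h3, ← Finset.sum_sub_distrib]
    apply Finset.sum_congr rfl
    intro a _
    unfold gapF
    ring
  rw [Finset.sum_congr rfl h1, Finset.sum_range_sub']
  have h2 := tot_mono n n h
  rw [tot_zero, tot_zero]
  have h3 := cl_lip 1 h
  linarith

/-! ### the triangular wave -/

noncomputable def wave (P t : ℝ) : ℝ := Metric.infDist t (Set.range fun i : ℤ => 2 * P * (i : ℝ))

theorem wave_ne (P : ℝ) : (Set.range fun i : ℤ => 2 * P * (i : ℝ)).Nonempty := ⟨_, ⟨0, rfl⟩⟩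

theorem wave_nonneg (P t : ℝ) : 0 ≤ wave P t := Metric.infDist_nonneg

theorem wave_lip (P t s : ℝ) : |wave P t - wave P s| ≤ |t - s| := by
  have h := (Metric.lipschitz_infDist_pt (Set.range fun i : ℤ => 2 * P * (i : ℝ))).dist_le_mul t s
  rw [NNReal.coe_one, one_mul, Real.dist_eq, Real.dist_eq] at h
  exact h

theorem wave_le (P t : ℝ) (hP : 0 < P) : wave P t ≤ P := by
  have h1 : wave P t ≤ dist t (2 * P * ((round (t / (2 * P)) : ℤ) : ℝ)) :=
    Metric.infDist_le_dist_of_mem ⟨_, rfl⟩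
  refine h1.trans ?_
  rw [Real.dist_eq]
  have h2 := abs_sub_round (t / (2 * P))
  have h3 : t - 2 * P * ((round (t / (2 * P)) : ℤ) : ℝ) =
      (2 * P) * (t / (2 * P) - ((round (t / (2 * P)) : ℤ) : ℝ)) := by
    field_simp
  rw [h3, abs_mul, abs_of_pos (by positivity)]
  have h4 : (2 * P) * |t / (2 * P) - ((round (t / (2 * P)) : ℤ) : ℝ)| ≤ (2 * P) * (1 / 2) :=
    mul_le_mul_of_nonneg_left h2 (by positivity)
  linarith

theorem wave_even (P : ℝ) (i : ℕ) : wave P ((2 * i : ℕ) * P) = 0 := by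
  have h1 : wave P ((2 * i : ℕ) * P) ≤ dist (((2 * i : ℕ) : ℝ) * P) (2 * P * ((i : ℤ) : ℝ)) :=
    Metric.infDist_le_dist_of_mem ⟨_, rfl⟩
  have h2 : ((2 * i : ℕ) : ℝ) * P = 2 * P * ((i : ℤ) : ℝ) := by
    push_cast
    ring
  rw [h2, dist_self, ← h2] at h1
  exact le_antisymm h1 (wave_nonneg _ _)

theorem wave_odd (P : ℝ) (hP : 0 < P) (i : ℕ) : wave P ((2 * i + 1 : ℕ) * P) = P := by
  apply le_antisymm (wave_le P _ hP)
  unfold wave
  rw [Metric.le_infDist (wave_ne P)]
  rintro _ ⟨j, rfl⟩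
  rw [Real.dist_eq]
  have h1 : ((2 * i + 1 : ℕ) : ℝ) * P - 2 * P * (j : ℝ) = (((2 * (i : ℤ) + 1 - 2 * j : ℤ)) : ℝ) * P := by
    push_cast
    ring
  rw [h1, abs_mul, abs_of_pos hP]
  have h2 : (1 : ℤ) ≤ |2 * (i : ℤ) + 1 - 2 * j| := by
    apply Int.one_le_abs
    omega
  have h3 : (1 : ℝ) ≤ |(((2 * (i : ℤ) + 1 - 2 * j : ℤ)) : ℝ)| := by
    exact_mod_cast h2
  have h4 : 1 * P ≤ |(((2 * (i : ℤ) + 1 - 2 * j : ℤ)) : ℝ)| * P :=
    mul_le_mul_of_nonneg_right h3 hP.le
  linarith

theorem wave_step (P : ℝ) (hP : 0 < P) (i : ℕ) :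
    |wave P ((i + 1 : ℕ) * P) - wave P ((i : ℕ) * P)| = P := by
  rcases Nat.even_or_odd' i with ⟨j, hj | hj⟩
  · subst hj
    rw [wave_odd P hP, wave_even, sub_zero, abs_of_pos hP]
  · subst hj
    have h1 : 2 * j + 1 + 1 = 2 * (j + 1) := by ring
    rw [h1, wave_even, wave_odd P hP, zero_sub, abs_neg, abs_of_pos hP]

/-! ### the test functions -/

/-- the test function attached to a gap of length `h` starting at `σ + h`, with wave amplitude `K h` -/
noncomputable def tst (K h σ : ℝ) (x : Plane) : ℝ :=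
  cl (x 0 - (σ + h)) h / h * wave (K * h) (x 1)

theorem abs_coord_le (x y : Plane) (i : Fin 2) : |x i - y i| ≤ dist x y := by
  rw [dist_eq_norm]
  have h1 := PiLp.norm_apply_le (x - y) i
  rw [Real.norm_eq_abs] at h1
  exact h1

theorem tst_diff (K h σ : ℝ) (hK : 0 < K) (hh : 0 < h) (x y : Plane) :
    |tst K h σ x - tst K h σ y| ≤
      |x 1 - y 1| + K * |cl (x 0 - (σ + h)) h - cl (y 0 - (σ + h)) h| := by
  unfold tst
  set A := cl (x 0 - (σ + h)) h with hA
  set B := cl (y 0 - (σ + h)) h with hB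
  set X := wave (K * h) (x 1) with hX
  set Y := wave (K * h) (y 1) with hY
  have h1 : A / h * X - B / h * Y = A / h * (X - Y) + (A - B) * (Y / h) := by
    field_simp
    ring
  rw [h1]
  refine (abs_add_le _ _).trans ?_
  have hA0 : 0 ≤ A := cl_nonneg _ _
  have hA1 : A ≤ h := cl_le _ _ hh.le
  have h2 : |A / h * (X - Y)| ≤ |x 1 - y 1| := by
    rw [abs_mul, abs_of_nonneg (by positivity)]
    have h3 : |X - Y| ≤ |x 1 - y 1| := wave_lip _ _ _
    have h4 : A / h ≤ 1 := by rw [div_le_one hh]; exact hA1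
    calc A / h * |X - Y| ≤ 1 * |X - Y| := mul_le_mul_of_nonneg_right h4 (abs_nonneg _)
      _ ≤ |x 1 - y 1| := by rw [one_mul]; exact h3
  have h5 : |(A - B) * (Y / h)| ≤ K * |A - B| := by
    have hY0 : 0 ≤ Y := wave_nonneg _ _
    have hY1 : Y ≤ K * h := wave_le _ _ (by positivity)
    rw [abs_mul, abs_of_nonneg (by positivity : 0 ≤ Y / h), mul_comm]
    apply mul_le_mul_of_nonneg_right _ (abs_nonneg _)
    rw [div_le_iff₀ hh]
    exact hY1
  linarith

theorem cl_abs_lip (h z z' : ℝ) : |cl z h - cl z' h| ≤ |z - z'| := by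
  rcases le_total z z' with hz | hz
  · have h1 := cl_lip h hz
    have h2 := cl_mono h hz
    rw [abs_sub_comm, abs_of_nonneg (by linarith), abs_sub_comm z z', abs_of_nonneg (by linarith)]
    exact h1
  · have h1 := cl_lip h hz
    have h2 := cl_mono h hz
    rw [abs_of_nonneg (by linarith), abs_of_nonneg (by linarith)]
    exact h1

theorem tst_lip (K h σ : ℝ) (hK : 0 < K) (hh : 0 < h) :
    ∃ L : ℝ≥0, LipschitzWith L (tst K h σ) := by
  refine ⟨⟨1 + K, by positivity⟩, ?_⟩
  apply LipschitzWith.of_dist_le_mul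
  intro x y
  rw [Real.dist_eq]
  refine (tst_diff K h σ hK hh x y).trans ?_
  have h1 := cl_abs_lip h (x 0 - (σ + h)) (y 0 - (σ + h))
  have h2 : x 0 - (σ + h) - (y 0 - (σ + h)) = x 0 - y 0 := by ring
  rw [h2] at h1
  have h3 := abs_coord_le x y 0
  have h4 := abs_coord_le x y 1
  have h5 : K * |cl (x 0 - (σ + h)) h - cl (y 0 - (σ + h)) h| ≤ K * dist x y :=
    mul_le_mul_of_nonneg_left (h1.trans h3) hK.le
  show _ ≤ (1 + K) * dist x y
  linarith

theorem rpow_le_self' {x p : ℝ} (h0 : 0 ≤ x) (h1 : x ≤ 1) (hp : 1 ≤ p) : x ^ p ≤ x := by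
  rcases h0.eq_or_lt with h | h
  · rw [← h, Real.zero_rpow (by linarith)]
  · have := Real.rpow_le_rpow_of_exponent_ge h h1 hp
    rwa [Real.rpow_one] at this

/-- pointwise bound of the truncation excess -/
theorem excess_le (K h σ p : ℝ) (hK : 0 < K) (hh : 0 < h) (hp : 1 ≤ p) (ω : Plane × Plane) :
    (max (|dq (tst K h σ) ω| - 1) 0) ^ p ≤
      K ^ p * (|cl (ω.1 0 - (σ + h)) h - cl (ω.2 0 - (σ + h)) h| / dist ω.1 ω.2) := by
  set D := |cl (ω.1 0 - (σ + h)) h - cl (ω.2 0 - (σ + h)) h| with hD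
  set d := dist ω.1 ω.2 with hd
  have hd0 : 0 ≤ d := dist_nonneg
  have hD0 : 0 ≤ D := abs_nonneg _
  have hDd : D ≤ d := by
    have h1 := cl_abs_lip h (ω.1 0 - (σ + h)) (ω.2 0 - (σ + h))
    have h2 : ω.1 0 - (σ + h) - (ω.2 0 - (σ + h)) = ω.1 0 - ω.2 0 := by ring
    rw [h2] at h1
    exact h1.trans (abs_coord_le _ _ 0)
  have hr1 : D / d ≤ 1 := div_le_one_of_le₀ hDd hd0
  have hr0 : 0 ≤ D / d := by positivity
  have hmax : max (|dq (tst K h σ) ω| - 1) 0 ≤ K * (D / d) := by
    apply max_le _ (by positivity)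
    rcases hd0.eq_or_lt with h0 | h0
    · unfold dq
      rw [← hd, ← h0, div_zero, abs_zero, div_zero, mul_zero]
      norm_num
    · unfold dq
      rw [abs_div, ← hd, abs_of_pos h0]
      have h1 := tst_diff K h σ hK hh ω.1 ω.2
      have h2 := abs_coord_le ω.1 ω.2 1
      rw [← hD] at h1
      rw [← hd] at h2
      have h3 : |tst K h σ ω.1 - tst K h σ ω.2| / d ≤ (d + K * D) / d :=
        div_le_div_of_nonneg_right (h1.trans (by linarith)) h0.le
      have h4 : (d + K * D) / d = 1 + K * (D / d) := by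
        field_simp
      linarith
  have h0 : 0 ≤ max (|dq (tst K h σ) ω| - 1) 0 := le_max_right _ _
  calc (max (|dq (tst K h σ) ω| - 1) 0) ^ p ≤ (K * (D / d)) ^ p :=
        Real.rpow_le_rpow h0 hmax (by linarith)
    _ = K ^ p * (D / d) ^ p := Real.mul_rpow hK.le hr0
    _ ≤ K ^ p * (D / d) := by
        apply mul_le_mul_of_nonneg_left _ (by positivity)
        exact rpow_le_self' hr0 hr1 hp

/-! ### variation estimate -/

theorem block_var (z : ℕ → ℝ) (B M : ℕ) :
    ∑ i ∈ Finset.range B, |z ((i + 1) * M) - z (i * M)| ≤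
      ∑ j ∈ Finset.range (B * M), |z (j + 1) - z j| := by
  induction B with
  | zero => simp
  | succ B ih =>
    rw [Finset.sum_range_succ, Nat.succ_mul, Finset.sum_range_add]
    apply add_le_add ih
    have h1 : z (B * M + M) - z (B * M) =
        ∑ j ∈ Finset.range M, (z (B * M + j + 1) - z (B * M + j)) := by
      have := Finset.sum_range_sub (fun j => z (B * M + j)) M
      simp only [add_zero] at this
      rw [← this]
      rfl
    rw [h1]
    exact Finset.abs_sum_le_sum_abs _ _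

theorem pt_dist (x y y' : ℝ) : dist (!₂[x, y] : Plane) !₂[x, y'] = |y - y'| := by
  rw [EuclideanSpace.dist_eq]
  simp [Real.sqrt_sq_eq_abs, Real.dist_eq]

theorem pt_dist' (x x' y : ℝ) : dist (!₂[x, y] : Plane) !₂[x', y] = |x - x'| := by
  rw [EuclideanSpace.dist_eq]
  simp [Real.sqrt_sq_eq_abs, Real.dist_eq]

/-- the test function takes the wave as boundary values on the two sides of its gap -/
theorem tst_pair {n : ℕ} (K : ℝ) (k : Fin n) (b : Fin n → Bool) (t : ℝ) :
    |tst K ((1 / 3 : ℝ) ^ ((k : ℕ) + 1)) (lft k b) !₂[lft n b, t] -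
      tst K ((1 / 3 : ℝ) ^ ((k : ℕ) + 1)) (lft k b) !₂[lft n (flip k b), t] -
      (if b k then (1 : ℝ) else -1) * wave (K * (1 / 3 : ℝ) ^ ((k : ℕ) + 1)) t| = 0 := by
  set h : ℝ := (1 / 3 : ℝ) ^ ((k : ℕ) + 1) with hh
  have hpos : 0 < h := by positivity
  have hkn : (k : ℕ) + 1 ≤ n := k.isLt
  have key : ∀ a : Fin n → Bool, cl (lft n a - (lft k a + h)) h = if a k then h else 0 := by
    intro a
    have h1 := lft_mono a hkn
    have h2 := lft_le a hkn
    rw [lft_succ, dig_self, ← hh] at h1 h2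
    have h3 : 0 < (1 / 3 : ℝ) ^ n := by positivity
    cases hak : a k
    · rw [hak] at h1 h2
      simp only [Bool.false_eq_true, if_false] at h1 h2 ⊢
      apply cl_of_le
      linarith
    · rw [hak] at h1 h2
      simp only [if_true] at h1 h2 ⊢
      apply cl_of_ge hpos.le
      linarith
  have hb := key b
  have hb' := key (flip k b)
  rw [lft_flip_le k b le_rfl] at hb'
  have hflip : (flip k b) k = !(b k) := by
    unfold flip
    rw [Function.update_self]
  rw [hflip] at hb'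
  unfold tst
  simp only [Matrix.cons_val_zero, Matrix.cons_val_one]
  rw [hb, hb']
  cases b k
  · simp only [Bool.false_eq_true, if_false, Bool.not_false, if_true]
    rw [div_self hpos.ne', zero_div]
    ring_nf
    exact abs_zero
  · simp only [if_true, Bool.not_true, Bool.false_eq_true, if_false]
    rw [div_self hpos.ne', zero_div]
    ring_nf
    exact abs_zero

/-- variation of a function along the vertical grid through the Cantor point of `b` -/
noncomputable def slope {n : ℕ} (v : Plane → ℝ) (b : Fin n → Bool) (j : ℕ) : ℝ :=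
  |v !₂[lft n b, ((j + 1 : ℕ) : ℝ) * (1 / 3 : ℝ) ^ n] - v !₂[lft n b, (j : ℝ) * (1 / 3 : ℝ) ^ n]| /
    (1 / 3 : ℝ) ^ n

theorem slope_nonneg {n : ℕ} (v : Plane → ℝ) (b : Fin n → Bool) (j : ℕ) : 0 ≤ slope v b j := by
  unfold slope
  positivity

/-- paired slopes cannot both be small -/
theorem pair_slope {n q : ℕ} (C : ℝ≥0) (hC : 8 * (C : ℝ) ≤ (3 : ℝ) ^ q) (k : Fin n)
    (b : Fin n → Bool) (u' : Plane → ℝ) (hu' : LipschitzWith C u') :
    (3 : ℝ) ^ (q + n) / 2 ≤ ∑ j ∈ Finset.range (3 ^ (q + n)),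
      (slope (fun x => tst ((3 : ℝ) ^ q) ((1 / 3 : ℝ) ^ ((k : ℕ) + 1)) (lft k b) x - u' x) b j +
       slope (fun x => tst ((3 : ℝ) ^ q) ((1 / 3 : ℝ) ^ ((k : ℕ) + 1)) (lft k b) x - u' x)
         (flip k b) j) := by
  set K : ℝ := (3 : ℝ) ^ q with hK
  set h : ℝ := (1 / 3 : ℝ) ^ ((k : ℕ) + 1) with hh
  set h0 : ℝ := (1 / 3 : ℝ) ^ n with hh0
  have hK0 : 0 < K := by positivity
  have hpos : 0 < h := by positivity
  have hpos0 : 0 < h0 := by positivity
  set v : Plane → ℝ := fun x => tst K h (lft k b) x - u' x with hv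
  let ζ : ℝ → ℝ := fun t => v !₂[lft n b, t] - v !₂[lft n (flip k b), t]
  let z : ℕ → ℝ := fun j => ζ ((j : ℝ) * h0)
  have hkn : (k : ℕ) + 1 ≤ n := k.isLt
  -- distance between the paired Cantor points
  have hcc : |lft n b - lft n (flip k b)| = 2 * h := by
    have h1 := lft_flip_gt k b (j := n) k.isLt
    rw [dig_flip_self, dig_self, ← hh] at h1
    rw [abs_sub_comm, h1, abs_mul, abs_of_pos hpos]
    cases b k <;> norm_num
  -- ζ is a wave up to a small error
  have hζ : ∀ t, |ζ t - (if b k then (1 : ℝ) else -1) * wave (K * h) t| ≤ C * (2 * h) := by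
    intro t
    have h1 := abs_eq_zero.mp (tst_pair K k b t)
    rw [← hh] at h1
    have h2 : ζ t - (if b k then (1 : ℝ) else -1) * wave (K * h) t =
        u' !₂[lft n (flip k b), t] - u' !₂[lft n b, t] := by
      show (tst K h (lft k b) !₂[lft n b, t] - u' !₂[lft n b, t]) -
        (tst K h (lft k b) !₂[lft n (flip k b), t] - u' !₂[lft n (flip k b), t]) - _ = _
      linarith
    rw [h2]
    have h3 := hu'.dist_le_mul !₂[lft n (flip k b), t] !₂[lft n b, t]
    rw [Real.dist_eq, pt_dist', abs_sub_comm (lft n (flip k b)), hcc] at h3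
    exact h3
  -- increments over blocks
  set M : ℕ := 3 ^ (q + (n - (k + 1))) with hM
  set B : ℕ := 3 ^ ((k : ℕ) + 1) with hB
  have hBM : B * M = 3 ^ (q + n) := by
    rw [hB, hM, ← pow_add]
    congr 1
    omega
  have hMh : (M : ℝ) * h0 = K * h := by
    rw [hM, hh0, hK, hh]
    have h1 : n = (n - (k + 1)) + (k + 1) := by omega
    push_cast
    rw [pow_add]
    have h2 : (1 / 3 : ℝ) ^ n = (1 / 3 : ℝ) ^ (n - ((k : ℕ) + 1)) * (1 / 3 : ℝ) ^ ((k : ℕ) + 1) := by
      rw [← pow_add]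
      congr 1
    rw [h2]
    have h3 : (3 : ℝ) ^ (n - ((k : ℕ) + 1)) * (1 / 3 : ℝ) ^ (n - ((k : ℕ) + 1)) = 1 := by
      rw [← mul_pow]
      norm_num
    calc (3 : ℝ) ^ q * (3 : ℝ) ^ (n - ((k : ℕ) + 1)) *
          ((1 / 3 : ℝ) ^ (n - ((k : ℕ) + 1)) * (1 / 3 : ℝ) ^ ((k : ℕ) + 1)) =
          (3 : ℝ) ^ q * ((3 : ℝ) ^ (n - ((k : ℕ) + 1)) * (1 / 3 : ℝ) ^ (n - ((k : ℕ) + 1))) *
            (1 / 3 : ℝ) ^ ((k : ℕ) + 1) := by ring
      _ = (3 : ℝ) ^ q * (1 / 3 : ℝ) ^ ((k : ℕ) + 1) := by rw [h3, mul_one]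
  have hP : 0 < K * h := by positivity
  have hblock : ∀ i : ℕ, K * h / 2 ≤ |z ((i + 1) * M) - z (i * M)| := by
    intro i
    have e1 : ((((i + 1) * M : ℕ) : ℝ)) * h0 = ((i + 1 : ℕ) : ℝ) * (K * h) := by
      rw [← hMh]
      push_cast
      ring
    have e2 : (((i * M : ℕ) : ℝ)) * h0 = (i : ℝ) * (K * h) := by
      rw [← hMh]
      push_cast
      ring
    have h1 : z ((i + 1) * M) = ζ (((i + 1 : ℕ) : ℝ) * (K * h)) := by
      show ζ _ = _
      rw [e1]
    have h2 : z (i * M) = ζ ((i : ℝ) * (K * h)) := by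
      show ζ _ = _
      rw [e2]
    rw [h1, h2]
    have h3 := hζ (((i + 1 : ℕ) : ℝ) * (K * h))
    have h4 := hζ ((i : ℝ) * (K * h))
    have h5 := wave_step (K * h) hP i
    set s : ℝ := (if b k then (1 : ℝ) else -1) with hs
    have hs1 : |s| = 1 := by
      rw [hs]
      cases b k <;> simp
    have h6 : |s * wave (K * h) (((i + 1 : ℕ) : ℝ) * (K * h)) - s * wave (K * h) ((i : ℝ) * (K * h))| =
        K * h := by
      rw [← mul_sub, abs_mul, hs1, one_mul]
      exact h5
    have h7 : s * wave (K * h) (((i + 1 : ℕ) : ℝ) * (K * h)) - s * wave (K * h) ((i : ℝ) * (K * h)) =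
        (ζ (((i + 1 : ℕ) : ℝ) * (K * h)) - ζ ((i : ℝ) * (K * h))) -
        (ζ (((i + 1 : ℕ) : ℝ) * (K * h)) - s * wave (K * h) (((i + 1 : ℕ) : ℝ) * (K * h))) +
        (ζ ((i : ℝ) * (K * h)) - s * wave (K * h) ((i : ℝ) * (K * h))) := by ring
    rw [h7] at h6
    have h8 := abs_add_le ((ζ (((i + 1 : ℕ) : ℝ) * (K * h)) - ζ ((i : ℝ) * (K * h))) -
        (ζ (((i + 1 : ℕ) : ℝ) * (K * h)) - s * wave (K * h) (((i + 1 : ℕ) : ℝ) * (K * h))))
        (ζ ((i : ℝ) * (K * h)) - s * wave (K * h) ((i : ℝ) * (K * h)))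
    have h9 := abs_sub (ζ (((i + 1 : ℕ) : ℝ) * (K * h)) - ζ ((i : ℝ) * (K * h)))
        (ζ (((i + 1 : ℕ) : ℝ) * (K * h)) - s * wave (K * h) (((i + 1 : ℕ) : ℝ) * (K * h)))
    have h10 : 8 * (C : ℝ) * h ≤ K * h := mul_le_mul_of_nonneg_right hC hpos.le
    linarith
  have hvar := block_var z B M
  rw [hBM] at hvar
  have hsum : (B : ℝ) * (K * h / 2) ≤ ∑ i ∈ Finset.range B, |z ((i + 1) * M) - z (i * M)| := by
    have h1 := Finset.sum_le_sum (fun i (_ : i ∈ Finset.range B) => hblock i)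
    rw [Finset.sum_const, Finset.card_range, nsmul_eq_mul] at h1
    exact h1
  have hBh : (B : ℝ) * h = 1 := by
    rw [hB, hh]
    push_cast
    rw [← mul_pow]
    norm_num
  have hlow : K / 2 ≤ ∑ j ∈ Finset.range (3 ^ (q + n)), |z (j + 1) - z j| := by
    have h1 : (B : ℝ) * (K * h / 2) = K / 2 * ((B : ℝ) * h) := by ring
    rw [h1, hBh, mul_one] at hsum
    exact hsum.trans hvar
  have hterm : ∀ j ∈ Finset.range (3 ^ (q + n)), |z (j + 1) - z j| / h0 ≤
      slope v b j + slope v (flip k b) j := by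
    intro j _
    unfold slope
    rw [← add_div, ← hh0]
    apply div_le_div_of_nonneg_right _ hpos0.le
    show |ζ (((j + 1 : ℕ) : ℝ) * h0) - ζ ((j : ℝ) * h0)| ≤ _
    have h1 : ζ (((j + 1 : ℕ) : ℝ) * h0) - ζ ((j : ℝ) * h0) =
        (v !₂[lft n b, ((j + 1 : ℕ) : ℝ) * h0] - v !₂[lft n b, (j : ℝ) * h0]) -
        (v !₂[lft n (flip k b), ((j + 1 : ℕ) : ℝ) * h0] - v !₂[lft n (flip k b), (j : ℝ) * h0]) := by
      show (v _ - v _) - (v _ - v _) = _
      ring
    rw [h1]
    exact abs_sub _ _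
  have h1 := Finset.sum_le_sum hterm
  rw [← Finset.sum_div] at h1
  refine le_trans ?_ h1
  rw [le_div_iff₀ hpos0]
  refine le_trans (le_of_eq ?_) hlow
  rw [pow_add, ← hK, hh0]
  have h2 : (3 : ℝ) ^ n * (1 / 3 : ℝ) ^ n = 1 := by
    rw [← mul_pow]
    norm_num
  calc K * (3 : ℝ) ^ n / 2 * (1 / 3 : ℝ) ^ n = K / 2 * ((3 : ℝ) ^ n * (1 / 3 : ℝ) ^ n) := by ring
    _ = K / 2 := by rw [h2, mul_one]

/-- the `p`-mean version -/
theorem pair_slope_p {n q : ℕ} (C : ℝ≥0) (hC : 8 * (C : ℝ) ≤ (3 : ℝ) ^ q) (p : ℝ) (hp : 1 ≤ p)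
    (k : Fin n) (b : Fin n → Bool) (u' : Plane → ℝ) (hu' : LipschitzWith C u') :
    2 * (3 : ℝ) ^ (q + n) * (1 / 4 : ℝ) ^ p ≤ ∑ j ∈ Finset.range (3 ^ (q + n)),
      ((slope (fun x => tst ((3 : ℝ) ^ q) ((1 / 3 : ℝ) ^ ((k : ℕ) + 1)) (lft k b) x - u' x) b j) ^ p +
       (slope (fun x => tst ((3 : ℝ) ^ q) ((1 / 3 : ℝ) ^ ((k : ℕ) + 1)) (lft k b) x - u' x)
         (flip k b) j) ^ p) := by
  have h1 := pair_slope C hC k b u' hu'
  set v : Plane → ℝ :=
    fun x => tst ((3 : ℝ) ^ q) ((1 / 3 : ℝ) ^ ((k : ℕ) + 1)) (lft k b) x - u' x with hv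
  set m : ℕ := 3 ^ (q + n) with hm
  have hmR : ((m : ℕ) : ℝ) = (3 : ℝ) ^ (q + n) := by rw [hm]; push_cast; rfl
  have hm0 : (0 : ℝ) < m := by rw [hmR]; positivity
  rw [← hmR] at h1 ⊢
  have hJ := Real.rpow_arith_mean_le_arith_mean_rpow (Finset.range m) (fun _ => (m : ℝ)⁻¹)
    (fun j => (slope v b j + slope v (flip k b) j) / 2) (fun j _ => by positivity)
    (by rw [Finset.sum_const, Finset.card_range, nsmul_eq_mul, mul_inv_cancel₀ hm0.ne'])
    (fun j _ => by
      have := slope_nonneg v b j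
      have := slope_nonneg v (flip k b) j
      positivity) hp
  have h2 : (1 / 4 : ℝ) ≤ ∑ j ∈ Finset.range m, (m : ℝ)⁻¹ *
      ((slope v b j + slope v (flip k b) j) / 2) := by
    rw [← Finset.mul_sum, ← Finset.sum_div, ← div_eq_inv_mul, le_div_iff₀ hm0]
    linarith
  have h3 : (1 / 4 : ℝ) ^ p ≤ (∑ j ∈ Finset.range m, (m : ℝ)⁻¹ *
      ((slope v b j + slope v (flip k b) j) / 2)) ^ p :=
    Real.rpow_le_rpow (by norm_num) h2 (by linarith)
  have h4 : ∀ j ∈ Finset.range m, (m : ℝ)⁻¹ * ((slope v b j + slope v (flip k b) j) / 2) ^ p ≤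
      (m : ℝ)⁻¹ * (((slope v b j) ^ p + (slope v (flip k b) j) ^ p) / 2) := by
    intro j _
    apply mul_le_mul_of_nonneg_left _ (by positivity)
    have h5 : (1 / 2 * slope v b j + 1 / 2 * slope v (flip k b) j) ^ p ≤
        1 / 2 * (slope v b j) ^ p + 1 / 2 * (slope v (flip k b) j) ^ p := by
      have h8 := (convexOn_rpow hp).2 (show slope v b j ∈ Set.Ici 0 from slope_nonneg v b j)
        (show slope v (flip k b) j ∈ Set.Ici 0 from slope_nonneg v (flip k b) j)
        (show (0 : ℝ) ≤ 1 / 2 by norm_num) (show (0 : ℝ) ≤ 1 / 2 by norm_num)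
        (show (1 / 2 : ℝ) + 1 / 2 = 1 by norm_num)
      simpa only [smul_eq_mul] using h8
    have h6 : (slope v b j + slope v (flip k b) j) / 2 =
        1 / 2 * slope v b j + 1 / 2 * slope v (flip k b) j := by ring
    rw [h6]
    refine h5.trans (le_of_eq ?_)
    ring
  have h7 := h3.trans (hJ.trans (Finset.sum_le_sum h4))
  rw [← Finset.mul_sum, ← Finset.sum_div, ← div_eq_inv_mul, le_div_iff₀ hm0] at h7
  linarith

/-! ### the measure -/

noncomputable def gpt {n : ℕ} (b : Fin n → Bool) (j : ℕ) : Plane × Plane :=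
  (!₂[lft n b, ((j + 1 : ℕ) : ℝ) * (1 / 3 : ℝ) ^ n], !₂[lft n b, (j : ℝ) * (1 / 3 : ℝ) ^ n])

theorem dq_gpt {n : ℕ} (u u' : Plane → ℝ) (b : Fin n → Bool) (j : ℕ) :
    |dq u (gpt b j) - dq u' (gpt b j)| = slope (fun x => u x - u' x) b j := by
  unfold dq gpt slope
  simp only
  rw [pt_dist]
  have h1 : ((j + 1 : ℕ) : ℝ) * (1 / 3 : ℝ) ^ n - (j : ℝ) * (1 / 3 : ℝ) ^ n = (1 / 3 : ℝ) ^ n := by
    push_cast
    ring
  have h2 : (0 : ℝ) < (1 / 3 : ℝ) ^ n := by positivity
  rw [h1, abs_of_pos h2, ← sub_div, abs_div, abs_of_pos h2]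
  congr 1
  congr 1
  ring

/-- the starting weight -/
noncomputable def wt (n m : ℕ) : Measure (Plane × Plane) :=
  ENNReal.ofReal ((2 : ℝ) ^ n * m)⁻¹ •
    ∑ b : Fin n → Bool, ∑ j ∈ Finset.range m, Measure.dirac (gpt b j)

theorem wt_integral (n m : ℕ) (g : Plane × Plane → ℝ) :
    ∫ ω, g ω ∂(wt n m) = ((2 : ℝ) ^ n * m)⁻¹ *
      ∑ b : Fin n → Bool, ∑ j ∈ Finset.range m, g (gpt b j) := by
  unfold wt
  rw [integral_smul_measure, ENNReal.toReal_ofReal (by positivity), smul_eq_mul]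
  congr 1
  have hint : ∀ (b : Fin n → Bool) (j : ℕ), Integrable g (Measure.dirac (gpt b j)) :=
    fun b j => integrable_dirac (by simp)
  rw [integral_finsetSum_measure]
  · apply Finset.sum_congr rfl
    intro b _
    rw [integral_finsetSum_measure]
    · apply Finset.sum_congr rfl
      intro j _
      rw [integral_dirac]
    · intro j _
      exact hint b j
  · intro b _
    rw [integrable_finsetSum_measure]
    intro j _
    exact hint b j

theorem wt_univ (n m : ℕ) (hm : 0 < m) : wt n m Set.univ = 1 := by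
  unfold wt
  rw [Measure.smul_apply, Measure.finsetSum_apply]
  have h1 : ∀ b : Fin n → Bool, (∑ j ∈ Finset.range m, Measure.dirac (gpt b j)) Set.univ =
      (m : ℝ≥0∞) := by
    intro b
    rw [Measure.finsetSum_apply]
    simp
  rw [Finset.sum_congr rfl (fun b _ => h1 b)]
  simp only [Finset.sum_const, Finset.card_univ, Fintype.card_fun, Fintype.card_bool,
    Fintype.card_fin, nsmul_eq_mul, smul_eq_mul]
  have h2 : ((2 ^ n : ℕ) : ℝ≥0∞) * (m : ℝ≥0∞) = ENNReal.ofReal ((2 : ℝ) ^ n * m) := by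
    rw [ENNReal.ofReal_mul (by positivity), ENNReal.ofReal_natCast]
    congr 1
    rw [ENNReal.ofReal_pow (by norm_num)]
    push_cast
    congr 1
    norm_num
  rw [h2, ← ENNReal.ofReal_mul (by positivity), inv_mul_cancel₀ (by positivity), ENNReal.ofReal_one]

theorem gap_abs_sum_le (n : ℕ) (x y : ℝ) :
    ∑ k ∈ Finset.range n, ∑ a : Fin n → Bool, (2 : ℝ) ^ k / 2 ^ n * |gapF k a x - gapF k a y| ≤
      |x - y| := by
  rcases le_total x y with h | h
  · have h1 := gap_sum_le n h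
    rw [abs_sub_comm x y, abs_of_nonneg (by linarith)]
    refine le_trans (le_of_eq ?_) h1
    apply Finset.sum_congr rfl
    intro k _
    apply Finset.sum_congr rfl
    intro a _
    have h2 : gapF k a x ≤ gapF k a y := cl_mono _ (by linarith)
    rw [abs_sub_comm, abs_of_nonneg (by linarith)]
  · have h1 := gap_sum_le n h
    rw [abs_of_nonneg (by linarith)]
    refine le_trans (le_of_eq ?_) h1
    apply Finset.sum_congr rfl
    intro k _
    apply Finset.sum_congr rfl
    intro a _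
    have h2 : gapF k a y ≤ gapF k a x := cl_mono _ (by linarith)
    rw [abs_of_nonneg (by linarith)]

theorem abs_dq_le {u : Plane → ℝ} {L : ℝ≥0} (hu : LipschitzWith L u) (ω : Plane × Plane) :
    |dq u ω| ≤ L := by
  unfold dq
  rw [abs_div, abs_of_nonneg dist_nonneg]
  apply div_le_of_le_mul₀ dist_nonneg L.2
  exact hu.dist_le_mul _ _

theorem measurable_dq {u : Plane → ℝ} {L : ℝ≥0} (hu : LipschitzWith L u) : Measurable (dq u) := by
  unfold dq
  have h1 : Measurable u := hu.continuous.measurable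
  exact ((h1.comp measurable_fst).sub (h1.comp measurable_snd)).div
    (measurable_fst.dist measurable_snd)

theorem card_same {n k : ℕ} (hk : k ≤ n) (b : Fin n → Bool) :
    (2 : ℝ) ^ n ≤ 2 ^ k * (Finset.univ.filter (fun a : Fin n → Bool => lft k a = lft k b)).card := by
  classical
  let G : (Fin n → Bool) → (Fin k → Bool) × {a : Fin n → Bool // lft k a = lft k b} := fun a =>
    (fun i => a ⟨i, lt_of_lt_of_le i.isLt hk⟩,
      ⟨fun i => if (i : ℕ) < k then b i else a i, by
        unfold lft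
        apply Finset.sum_congr rfl
        intro i hi
        rw [Finset.mem_range] at hi
        congr 1
        unfold dig
        by_cases h : i < n
        · rw [dif_pos h, dif_pos h]
          simp only [if_pos hi]
        · rw [dif_neg h, dif_neg h]⟩)
  have hG : Function.Injective G := by
    intro a a' haa
    have h1 := congrArg Prod.fst haa
    have h2 := congrArg Subtype.val (congrArg Prod.snd haa)
    funext i
    by_cases hi : (i : ℕ) < k
    · have h3 := congrFun h1 ⟨i, hi⟩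
      exact h3
    · have h3 := congrFun h2 i
      simp only [G, if_neg hi] at h3
      exact h3
  have h1 := Fintype.card_le_of_injective G hG
  rw [Fintype.card_prod, Fintype.card_fun, Fintype.card_fun, Fintype.card_bool, Fintype.card_fin,
    Fintype.card_fin, Fintype.card_subtype] at h1
  exact_mod_cast h1

/-- The quantitative barrier. -/
theorem barrier (C : ℝ≥0) (p : ℝ) (hp : 1 ≤ p) (q n : ℕ) (hC : 8 * (C : ℝ) ≤ (3 : ℝ) ^ q)
    (W : Measure (Plane × Plane)) [IsFiniteMeasure W] (hle : wt n (3 ^ (q + n)) ≤ W)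
    (hT : Truncates p C W) :
    (n : ℝ) * (1 / 4 : ℝ) ^ p ≤ (C : ℝ) ^ p * (((3 : ℝ) ^ q) ^ p * W.real Set.univ) := by
  classical
  set K : ℝ := (3 : ℝ) ^ q with hK
  set m : ℕ := 3 ^ (q + n) with hm
  have hK0 : 0 < K := by positivity
  have hm0 : 0 < m := by positivity
  have hmR : ((m : ℕ) : ℝ) = (3 : ℝ) ^ (q + n) := by rw [hm]; push_cast; rfl
  have hp0 : 0 < p := by linarith
  have hex : ∀ u : Plane → ℝ, ∃ u' : Plane → ℝ, (∃ L : ℝ≥0, LipschitzWith L u) →
      (LipschitzWith C u' ∧ ∫ ω, |dq u ω - dq u' ω| ^ p ∂W ≤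
        (C : ℝ) ^ p * ∫ ω, (max (|dq u ω| - 1) 0) ^ p ∂W) := by
    intro u
    by_cases h : ∃ L : ℝ≥0, LipschitzWith L u
    · obtain ⟨u', hu'⟩ := hT u h
      exact ⟨u', fun _ => hu'⟩
    · exact ⟨u, fun h' => absurd h' h⟩
  choose Φ hΦ using hex
  let h : ℕ → ℝ := fun k => (1 / 3 : ℝ) ^ (k + 1)
  have hh : ∀ k, 0 < h k := fun k => by positivity
  let I : ℕ → (Fin n → Bool) → ℝ := fun k a =>
    ∫ ω, |dq (tst K (h k) (lft k a)) ω - dq (Φ (tst K (h k) (lft k a))) ω| ^ p ∂W
  let J : ℕ → (Fin n → Bool) → ℝ := fun k a =>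
    ∫ ω, (max (|dq (tst K (h k) (lft k a)) ω| - 1) 0) ^ p ∂W
  have hIJ : ∀ k a, I k a ≤ (C : ℝ) ^ p * J k a := fun k a =>
    (hΦ _ (tst_lip K (h k) (lft k a) hK0 (hh k))).2
  have hΦL : ∀ k a, LipschitzWith C (Φ (tst K (h k) (lft (n := n) k a))) := fun k a =>
    (hΦ _ (tst_lip K (h k) (lft k a) hK0 (hh k))).1
  -- upper bound
  have hJint : ∀ k a, Integrable
      (fun ω => (max (|dq (tst K (h k) (lft (n := n) k a)) ω| - 1) 0) ^ p) W := by
    intro k a
    obtain ⟨L, hL⟩ := tst_lip K (h k) (lft (n := n) k a) hK0 (hh k)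
    have hmeas : Measurable (fun ω => (max (|dq (tst K (h k) (lft (n := n) k a)) ω| - 1) 0) ^ p) :=
      (((measurable_dq hL).abs.sub_const 1).max measurable_const).pow_const p
    apply Integrable.of_bound hmeas.aestronglyMeasurable ((L : ℝ) ^ p)
    apply Filter.Eventually.of_forall
    intro ω
    rw [Real.norm_eq_abs, abs_of_nonneg (Real.rpow_nonneg (le_max_right _ _) _)]
    apply Real.rpow_le_rpow (le_max_right _ _) _ hp0.le
    apply max_le _ L.2
    exact (sub_le_self _ zero_le_one).trans (abs_dq_le hL ω)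
  have hupper : ∑ k ∈ Finset.range n, ∑ a : Fin n → Bool, (2 : ℝ) ^ k / 2 ^ n * J k a ≤
      K ^ p * W.real Set.univ := by
    have h1 : ∑ k ∈ Finset.range n, ∑ a : Fin n → Bool, (2 : ℝ) ^ k / 2 ^ n * J k a =
        ∫ ω, ∑ k ∈ Finset.range n, ∑ a : Fin n → Bool, (2 : ℝ) ^ k / 2 ^ n *
          (max (|dq (tst K (h k) (lft k a)) ω| - 1) 0) ^ p ∂W := by
      rw [integral_finsetSum]
      · apply Finset.sum_congr rfl
        intro k _
        rw [integral_finsetSum]
        · apply Finset.sum_congr rfl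
          intro a _
          rw [integral_const_mul]
        · intro a _
          exact (hJint k a).const_mul _
      · intro k _
        apply integrable_finsetSum
        intro a _
        exact (hJint k a).const_mul _
    rw [h1]
    have h2 : ∫ ω, ∑ k ∈ Finset.range n, ∑ a : Fin n → Bool, (2 : ℝ) ^ k / 2 ^ n *
          (max (|dq (tst K (h k) (lft k a)) ω| - 1) 0) ^ p ∂W ≤ ∫ _ω, K ^ p ∂W := by
      apply integral_mono
      · apply integrable_finsetSum
        intro k _
        apply integrable_finsetSum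
        intro a _
        exact (hJint k a).const_mul _
      · exact integrable_const _
      · intro ω
        show ∑ k ∈ Finset.range n, ∑ a : Fin n → Bool, (2 : ℝ) ^ k / 2 ^ n *
          (max (|dq (tst K (h k) (lft k a)) ω| - 1) 0) ^ p ≤ K ^ p
        have h3 : ∑ k ∈ Finset.range n, ∑ a : Fin n → Bool, (2 : ℝ) ^ k / 2 ^ n *
            (max (|dq (tst K (h k) (lft k a)) ω| - 1) 0) ^ p ≤
            ∑ k ∈ Finset.range n, ∑ a : Fin n → Bool, (K ^ p / dist ω.1 ω.2) *
              ((2 : ℝ) ^ k / 2 ^ n * |gapF k a (ω.1 0) - gapF k a (ω.2 0)|) := by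
          apply Finset.sum_le_sum
          intro k _
          apply Finset.sum_le_sum
          intro a _
          have h4 := excess_le K (h k) (lft k a) p hK0 (hh k) hp ω
          have h5 : (2 : ℝ) ^ k / 2 ^ n * (max (|dq (tst K (h k) (lft k a)) ω| - 1) 0) ^ p ≤
              (2 : ℝ) ^ k / 2 ^ n * (K ^ p * (|cl (ω.1 0 - (lft k a + h k)) (h k) -
                cl (ω.2 0 - (lft k a + h k)) (h k)| / dist ω.1 ω.2)) :=
            mul_le_mul_of_nonneg_left h4 (by positivity)
          refine h5.trans (le_of_eq ?_)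
          show _ = (K ^ p / dist ω.1 ω.2) * ((2 : ℝ) ^ k / 2 ^ n *
            |cl (ω.1 0 - (lft k a + h k)) (h k) - cl (ω.2 0 - (lft k a + h k)) (h k)|)
          ring
        refine h3.trans ?_
        have h3' : ∑ k ∈ Finset.range n, ∑ a : Fin n → Bool, (K ^ p / dist ω.1 ω.2) *
              ((2 : ℝ) ^ k / 2 ^ n * |gapF k a (ω.1 0) - gapF k a (ω.2 0)|) =
            K ^ p / dist ω.1 ω.2 * ∑ k ∈ Finset.range n, ∑ a : Fin n → Bool,
              (2 : ℝ) ^ k / 2 ^ n * |gapF k a (ω.1 0) - gapF k a (ω.2 0)| := by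
          rw [Finset.mul_sum]
          apply Finset.sum_congr rfl
          intro k _
          rw [Finset.mul_sum]
        rw [h3']
        have h6 := gap_abs_sum_le n (ω.1 0) (ω.2 0)
        have h7 := abs_coord_le ω.1 ω.2 0
        have h8 : 0 ≤ K ^ p := by positivity
        rcases (dist_nonneg : 0 ≤ dist ω.1 ω.2).eq_or_lt with h0 | h0
        · rw [← h0, div_zero, zero_mul]
          exact h8
        · have h9 : K ^ p / dist ω.1 ω.2 * ∑ k ∈ Finset.range n, ∑ a : Fin n → Bool,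
              (2 : ℝ) ^ k / 2 ^ n * |gapF k a (ω.1 0) - gapF k a (ω.2 0)| ≤
              K ^ p / dist ω.1 ω.2 * dist ω.1 ω.2 :=
            mul_le_mul_of_nonneg_left (h6.trans h7) (by positivity)
          refine h9.trans (le_of_eq ?_)
          field_simp
    refine h2.trans (le_of_eq ?_)
    rw [integral_const, smul_eq_mul, mul_comm]
  -- lower bound
  have hIint : ∀ k a, Integrable (fun ω => |dq (tst K (h k) (lft (n := n) k a)) ω -
      dq (Φ (tst K (h k) (lft k a))) ω| ^ p) W := by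
    intro k a
    obtain ⟨L, hL⟩ := tst_lip K (h k) (lft (n := n) k a) hK0 (hh k)
    have hmeas : Measurable (fun ω => |dq (tst K (h k) (lft (n := n) k a)) ω -
        dq (Φ (tst K (h k) (lft k a))) ω| ^ p) :=
      (((measurable_dq hL).sub (measurable_dq (hΦL k a))).abs).pow_const p
    apply Integrable.of_bound hmeas.aestronglyMeasurable (((L : ℝ) + C) ^ p)
    apply Filter.Eventually.of_forall
    intro ω
    rw [Real.norm_eq_abs, abs_of_nonneg (Real.rpow_nonneg (abs_nonneg _) _)]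
    apply Real.rpow_le_rpow (abs_nonneg _) _ hp0.le
    exact (abs_sub _ _).trans (add_le_add (abs_dq_le hL ω) (abs_dq_le (hΦL k a) ω))
  let Y : ℕ → (Fin n → Bool) → ℝ → ℝ := fun k b σ => ∑ j ∈ Finset.range m,
    (slope (fun x => tst K (h k) σ x - Φ (tst K (h k) σ) x) b j) ^ p
  have hY0 : ∀ k b σ, 0 ≤ Y k b σ := fun k b σ =>
    Finset.sum_nonneg fun j _ => Real.rpow_nonneg (slope_nonneg _ _ _) _
  have hIw : ∀ k a, ((2 : ℝ) ^ n * m)⁻¹ * ∑ b : Fin n → Bool, Y k b (lft k a) ≤ I k a := by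
    intro k a
    have h1 : ∫ ω, |dq (tst K (h k) (lft k a)) ω - dq (Φ (tst K (h k) (lft k a))) ω| ^ p
        ∂(wt n m) ≤ I k a := by
      apply integral_mono_measure hle _ (hIint k a)
      apply Filter.Eventually.of_forall
      intro ω
      exact Real.rpow_nonneg (abs_nonneg _) _
    rw [wt_integral] at h1
    refine le_trans (le_of_eq ?_) h1
    congr 1
    apply Finset.sum_congr rfl
    intro b _
    apply Finset.sum_congr rfl
    intro j _
    rw [dq_gpt]
  have hlower : ∀ k ∈ Finset.range n, (1 / 4 : ℝ) ^ p ≤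
      ∑ a : Fin n → Bool, (2 : ℝ) ^ k / 2 ^ n * I k a := by
    intro k hk
    rw [Finset.mem_range] at hk
    have hc0 : (0 : ℝ) < (2 : ℝ) ^ n * m := by positivity
    -- step 1
    have h1 : ∑ a : Fin n → Bool, (2 : ℝ) ^ k / 2 ^ n *
        (((2 : ℝ) ^ n * m)⁻¹ * ∑ b : Fin n → Bool, Y k b (lft k a)) ≤
        ∑ a : Fin n → Bool, (2 : ℝ) ^ k / 2 ^ n * I k a := by
      apply Finset.sum_le_sum
      intro a _
      exact mul_le_mul_of_nonneg_left (hIw k a) (by positivity)
    refine le_trans ?_ h1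
    -- step 2: restrict to equal prefixes
    have h2 : ∀ b : Fin n → Bool, Y k b (lft k b) ≤
        ∑ a : Fin n → Bool, (2 : ℝ) ^ k / 2 ^ n * Y k b (lft k a) := by
      intro b
      have h3 : ∑ a ∈ Finset.univ.filter (fun a : Fin n → Bool => lft k a = lft k b),
          (2 : ℝ) ^ k / 2 ^ n * Y k b (lft k a) ≤
          ∑ a : Fin n → Bool, (2 : ℝ) ^ k / 2 ^ n * Y k b (lft k a) := by
        apply Finset.sum_le_sum_of_subset_of_nonneg (Finset.filter_subset _ _)
        intro a _ _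
        have := hY0 k b (lft k a)
        positivity
      refine le_trans ?_ h3
      have h4 : ∑ a ∈ Finset.univ.filter (fun a : Fin n → Bool => lft k a = lft k b),
          (2 : ℝ) ^ k / 2 ^ n * Y k b (lft k a) =
          (Finset.univ.filter (fun a : Fin n → Bool => lft k a = lft k b)).card *
            ((2 : ℝ) ^ k / 2 ^ n * Y k b (lft k b)) := by
        rw [← nsmul_eq_mul, ← Finset.sum_const]
        apply Finset.sum_congr rfl
        intro a ha
        rw [Finset.mem_filter] at ha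
        rw [ha.2]
      rw [h4]
      have h5 := card_same hk.le b
      have h6 : (1 : ℝ) ≤ (Finset.univ.filter (fun a : Fin n → Bool => lft k a = lft k b)).card *
          ((2 : ℝ) ^ k / 2 ^ n) := by
        rw [← mul_div_assoc, le_div_iff₀ (by positivity), one_mul, mul_comm]
        exact h5
      rw [← mul_assoc]
      have h7 := mul_le_mul_of_nonneg_right h6 (hY0 k b (lft k b))
      rwa [one_mul] at h7
    have h8 : ((2 : ℝ) ^ n * m)⁻¹ * ∑ b : Fin n → Bool, Y k b (lft k b) ≤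
        ∑ a : Fin n → Bool, (2 : ℝ) ^ k / 2 ^ n *
        (((2 : ℝ) ^ n * m)⁻¹ * ∑ b : Fin n → Bool, Y k b (lft k a)) := by
      have h9 : ∑ a : Fin n → Bool, (2 : ℝ) ^ k / 2 ^ n *
          (((2 : ℝ) ^ n * m)⁻¹ * ∑ b : Fin n → Bool, Y k b (lft k a)) =
          ((2 : ℝ) ^ n * m)⁻¹ * ∑ b : Fin n → Bool,
            ∑ a : Fin n → Bool, (2 : ℝ) ^ k / 2 ^ n * Y k b (lft k a) := by
        rw [Finset.sum_comm, Finset.mul_sum]
        apply Finset.sum_congr rfl
        intro a _
        rw [← Finset.mul_sum]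
        ring
      rw [h9]
      exact mul_le_mul_of_nonneg_left (Finset.sum_le_sum fun b _ => h2 b) (by positivity)
    refine le_trans ?_ h8
    -- step 3: pair up
    have h10 : (2 : ℝ) * ∑ b : Fin n → Bool, Y k b (lft k b) =
        ∑ b : Fin n → Bool, (Y k b (lft k b) + Y k (flip ⟨k, hk⟩ b) (lft k b)) := by
      rw [Finset.sum_add_distrib, two_mul]
      congr 1
      rw [← sum_flip ⟨k, hk⟩ (fun b => Y k b (lft k b))]
      apply Finset.sum_congr rfl
      intro b _
      rw [lft_flip_le ⟨k, hk⟩ b (j := k) le_rfl]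
    have h11 : ∀ b : Fin n → Bool, 2 * (m : ℝ) * (1 / 4 : ℝ) ^ p ≤
        Y k b (lft k b) + Y k (flip ⟨k, hk⟩ b) (lft k b) := by
      intro b
      have h12 := pair_slope_p C hC p hp ⟨k, hk⟩ b (Φ (tst K (h k) (lft k b))) (hΦL k b)
      rw [Finset.sum_add_distrib, ← hmR, ← hm, ← hK] at h12
      exact h12
    have h13 : (2 : ℝ) ^ n * (2 * (m : ℝ) * (1 / 4 : ℝ) ^ p) ≤
        2 * ∑ b : Fin n → Bool, Y k b (lft k b) := by
      rw [h10]
      have h14 := Finset.sum_le_sum (fun b (_ : b ∈ (Finset.univ : Finset (Fin n → Bool))) => h11 b)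
      rw [Finset.sum_const, Finset.card_univ, Fintype.card_fun, Fintype.card_bool,
        Fintype.card_fin, nsmul_eq_mul] at h14
      push_cast at h14
      exact h14
    rw [inv_mul_eq_div, le_div_iff₀ hc0]
    linarith
  -- conclusion
  have hA : (n : ℝ) * (1 / 4 : ℝ) ^ p ≤
      ∑ k ∈ Finset.range n, ∑ a : Fin n → Bool, (2 : ℝ) ^ k / 2 ^ n * I k a := by
    have h1 := Finset.sum_le_sum hlower
    rw [Finset.sum_const, Finset.card_range, nsmul_eq_mul] at h1
    exact h1
  have hB : ∑ k ∈ Finset.range n, ∑ a : Fin n → Bool, (2 : ℝ) ^ k / 2 ^ n * I k a ≤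
      (C : ℝ) ^ p * ∑ k ∈ Finset.range n, ∑ a : Fin n → Bool, (2 : ℝ) ^ k / 2 ^ n * J k a := by
    rw [Finset.mul_sum]
    apply Finset.sum_le_sum
    intro k _
    rw [Finset.mul_sum]
    apply Finset.sum_le_sum
    intro a _
    have h1 := mul_le_mul_of_nonneg_left (hIJ k a) (show (0 : ℝ) ≤ (2 : ℝ) ^ k / 2 ^ n by positivity)
    refine h1.trans (le_of_eq ?_)
    ring
  refine hA.trans (hB.trans ?_)
  exact mul_le_mul_of_nonneg_left hupper (by positivity)

theorem result :
    ∀ (p : ℝ), 1 ≤ p → ∀ (C : ℝ≥0) (A : ℝ), ∃ w : Measure (Plane × Plane),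
      w Set.univ = 1 ∧ ∀ (W : Measure (Plane × Plane)) [IsFiniteMeasure W], w ≤ W →
        Truncates p C W → A < W.real Set.univ := by
  intro p hp C A
  obtain ⟨q, hq⟩ := pow_unbounded_of_one_lt (8 * (C : ℝ)) (show (1 : ℝ) < 3 by norm_num)
  obtain ⟨n, hn⟩ := exists_nat_gt ((C : ℝ) ^ p * (((3 : ℝ) ^ q) ^ p * |A|) / (1 / 4 : ℝ) ^ p)
  refine ⟨wt n (3 ^ (q + n)), wt_univ n _ (by positivity), ?_⟩
  intro W _ hle hT
  have h1 := barrier C p hp q n hq.le W hle hT
  by_contra hcon
  push Not at hcon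
  have h4 : (0 : ℝ) < (1 / 4 : ℝ) ^ p := by positivity
  rw [div_lt_iff₀ h4] at hn
  have h2 : (C : ℝ) ^ p * (((3 : ℝ) ^ q) ^ p * W.real Set.univ) ≤
      (C : ℝ) ^ p * (((3 : ℝ) ^ q) ^ p * |A|) := by
    apply mul_le_mul_of_nonneg_left _ (by positivity)
    apply mul_le_mul_of_nonneg_left _ (by positivity)
    exact hcon.trans (le_abs_self _)
  linarith

end Pool.Agent.Results.MP_e1b320_an.WeightedTruncation
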